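import Mathlib

/-!
# Weil numbers in abelian CM fields: definitions
-/

namespace Run7.h16.AB

open NumberField

/-- `y` is a product of elements of proper subfields of `T`. -/
def FromSubfields {T : Type} [Field T] (y : T) : Prop :=
  y ∈ Submonoid.closure {y : T | ∃ F : Subfield T, F ≠ ⊤ ∧ y ∈ F}

/-- The Galois group of `T` over `ℚ` is cyclic and `T` is not totally real. -/
def CyclicNotReal (T : Type) [Field T] [NumberField T] : Prop :=
  ¬ IsTotallyReal T ∧ IsCyclic (T ≃ₐ[ℚ] T)

/-- For each `i`, no positive power of the norm of `π i` to a subfield `T` of `K i` that is cyclic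
over `ℚ` and not totally real is a product of elements of proper subfields of `T`. -/
def NormsIndecomposable {I : Type} {K : I → Type} [∀ i, Field (K i)] [∀ i, NumberField (K i)]
    (π : ∀ i, K i) : Prop :=
  ∀ (i : I) (T : IntermediateField ℚ (K i)), CyclicNotReal T → ∀ n : ℕ, 0 < n →
    ¬ FromSubfields (Algebra.norm T (π i) ^ n)

/-- Isomorphic subfields of different members of the family are totally real. -/
def RealIntersections {I : Type} (K : I → Type) [∀ i, Field (K i)] [∀ i, NumberField (K i)] :
    Prop :=
  ∀ (i i' : I) (T : IntermediateField ℚ (K i)) (T' : IntermediateField ℚ (K i')), i ≠ i' →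
    Nonempty (T ≃+* T') → IsTotallyReal T

end Run7.h16.AB
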