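import Mathlib

/-!
# An element of the group ring of a finite commutative group
-/

set_option linter.unusedSectionVars false
set_option linter.unusedVariables false

namespace Run7.h16.AB

open Finset

noncomputable section

variable {C : Type*} [CommGroup C] [Fintype C]

theorem lift_eq_sum {A : Type*} [Ring A] (F : C →* A) (a : MonoidAlgebra ℤ C) :
    MonoidAlgebra.lift ℤ A C F a = ∑ g, a.coeff g • F g := by
  rw [MonoidAlgebra.lift_apply, Finsupp.sum_fintype]
  intro i
  rw [zero_smul]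

open Classical in
/-- The element `|H| - ∑ h` of the group ring, the sum over the subgroup `H`. -/
def del (H : Subgroup C) : MonoidAlgebra ℤ C :=
  (Nat.card H : MonoidAlgebra ℤ C) - ∑ h : C, if h ∈ H then MonoidAlgebra.of ℤ C h else 0

open Classical in
/-- The product of the elements `|H| - ∑ h` over the nontrivial subgroups. -/
def eps (C : Type*) [CommGroup C] [Fintype C] : MonoidAlgebra ℤ C :=
  ∏ H : {H : Subgroup C // H ≠ ⊥}, del H.1

open Classical in
theorem lift_del {A : Type*} [Ring A] (F : C →* A) (H : Subgroup C) :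
    MonoidAlgebra.lift ℤ A C F (del H) = (Nat.card H : A) - ∑ h : C, if h ∈ H then F h else 0 := by
  unfold del
  rw [map_sub, map_natCast, map_sum]
  congr 1
  refine Finset.sum_congr rfl fun h _ => ?_
  split_ifs
  · rw [MonoidAlgebra.lift_of]
  · rw [map_zero]

open Classical in
theorem sum_char_zero (χ : C →* ℂ) (H : Subgroup C) (h₀ : C) (hh : h₀ ∈ H) (hne : χ h₀ ≠ 1) :
    ∑ h : C, (if h ∈ H then χ h else 0) = 0 := by
  have h1 : ∑ h : C, (if h ∈ H then χ h else 0) =
      χ h₀ * ∑ h : C, (if h ∈ H then χ h else 0) := by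
    rw [Finset.mul_sum]
    refine (Fintype.sum_equiv (Equiv.mulLeft h₀) _ _ fun h => ?_).symm
    rw [Equiv.coe_mulLeft]
    by_cases h2 : h ∈ H
    · rw [if_pos h2, if_pos (H.mul_mem hh h2), map_mul]
    · rw [if_neg h2, if_neg (fun h3 => h2 ((H.mul_mem_cancel_left hh).1 h3)), mul_zero]
  have h2 : (χ h₀ - 1) * ∑ h : C, (if h ∈ H then χ h else 0) = 0 := by
    rw [sub_mul, one_mul, ← h1, sub_self]
  exact (mul_eq_zero.1 h2).resolve_left (sub_ne_zero.2 hne)

theorem exists_mem_ne_one {H : Subgroup C} (hH : H ≠ ⊥) : ∃ h ∈ H, h ≠ 1 := by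
  obtain ⟨x, hx⟩ := (Subgroup.ne_bot_iff_exists_ne_one).1 hH
  exact ⟨x, x.2, fun h => hx (Subtype.ext h)⟩

theorem card_ne_zero (H : Subgroup C) : (Nat.card H : ℂ) ≠ 0 := by
  exact_mod_cast (Nat.card_pos (α := H)).ne'

theorem lift_eps_ne_zero (χ : C →* ℂ) (hχ : Function.Injective χ) :
    MonoidAlgebra.lift ℤ ℂ C χ (eps C) ≠ 0 := by
  classical
  unfold eps
  rw [map_prod, Finset.prod_ne_zero_iff]
  rintro ⟨H, hH⟩ _
  obtain ⟨h₀, hh, hne⟩ := exists_mem_ne_one hH
  rw [lift_del, sum_char_zero χ H h₀ hh (fun h => hne (hχ (h.trans (map_one χ).symm))), sub_zero]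
  exact card_ne_zero H

theorem lift_del_of_trivial {A : Type*} [Ring A] (χ : C →* A) (H : Subgroup C)
    (hH : ∀ h ∈ H, χ h = 1) : MonoidAlgebra.lift ℤ A C χ (del H) = 0 := by
  classical
  rw [lift_del]
  have h1 : ∑ h : C, (if h ∈ H then χ h else 0) = ∑ h : C, if h ∈ H then (1 : A) else 0 := by
    refine Finset.sum_congr rfl fun h _ => ?_
    split_ifs with h2
    · exact hH h h2
    · rfl
  rw [h1, Finset.sum_boole, sub_eq_zero, Nat.card_eq_fintype_card, Fintype.card_subtype]

theorem lift_eps_eq_zero (χ : C →* ℂ) (hχ : ¬ Function.Injective χ) :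
    MonoidAlgebra.lift ℤ ℂ C χ (eps C) = 0 := by
  classical
  have hH : χ.ker ≠ ⊥ := fun h => hχ ((MonoidHom.ker_eq_bot_iff χ).1 h)
  unfold eps
  rw [map_prod, Finset.prod_eq_zero (Finset.mem_univ (⟨χ.ker, hH⟩ : {H : Subgroup C // H ≠ ⊥}))]
  exact lift_del_of_trivial χ χ.ker fun h hh => hh

theorem of_mul_eps (z : C) (hz : z * z = 1) (hz1 : z ≠ 1) :
    MonoidAlgebra.of ℤ C z * eps C = - eps C := by
  classical
  let H : Subgroup C := Subgroup.zpowers z
  have hH : H ≠ ⊥ := fun h => hz1 (Subgroup.zpowers_eq_bot.1 h)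
  have hmem : ∀ h, h ∈ H ↔ h = 1 ∨ h = z := by
    intro h
    constructor
    · intro hh
      obtain ⟨k, rfl⟩ := Subgroup.mem_zpowers_iff.1 hh
      rcases Int.even_or_odd k with ⟨l, rfl⟩ | ⟨l, rfl⟩
      · left
        rw [← two_mul, zpow_mul, show z ^ (2 : ℤ) = 1 by
          rw [show (2 : ℤ) = ((2 : ℕ) : ℤ) from rfl, zpow_natCast, pow_two, hz], one_zpow]
      · right
        rw [zpow_add, zpow_mul, show z ^ (2 : ℤ) = 1 by
          rw [show (2 : ℤ) = ((2 : ℕ) : ℤ) from rfl, zpow_natCast, pow_two, hz], one_zpow, one_mul,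
          zpow_one]
    · rintro (rfl | rfl)
      · exact H.one_mem
      · exact Subgroup.mem_zpowers _
  have hsum : ∑ h : C, (if h ∈ H then MonoidAlgebra.of ℤ C h else 0) =
      1 + MonoidAlgebra.of ℤ C z := by
    rw [← Finset.sum_filter]
    have h1 : Finset.univ.filter (fun h : C => h ∈ H) = {1, z} := by
      ext h
      rw [Finset.mem_filter, Finset.mem_insert, Finset.mem_singleton, hmem]
      simp
    rw [h1, Finset.sum_pair (Ne.symm hz1), map_one]
  have hcard : Nat.card H = 2 := by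
    rw [Nat.card_zpowers]
    exact orderOf_eq_prime (by rw [pow_two, hz]) hz1
  have hdel : del H = 1 - MonoidAlgebra.of ℤ C z := by
    unfold del
    rw [hsum, hcard]
    push_cast
    ring
  unfold eps
  rw [← Finset.mul_prod_erase _ _ (Finset.mem_univ (⟨H, hH⟩ : {H : Subgroup C // H ≠ ⊥}))]
  dsimp only
  rw [hdel, ← mul_assoc, mul_sub, mul_one, ← map_mul, hz, map_one, ← neg_mul, neg_sub]

theorem coeff_mul_left (z g : C) (a : MonoidAlgebra ℤ C) :
    (MonoidAlgebra.of ℤ C z * a).coeff (z * g) = a.coeff g := by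
  rw [MonoidAlgebra.of_apply]
  simp

theorem eps_odd (z : C) (hz : z * z = 1) (hz1 : z ≠ 1) (g : C) :
    (eps C).coeff (z * g) = - (eps C).coeff g := by
  have h1 := coeff_mul_left z g (eps C)
  rw [of_mul_eps z hz hz1] at h1
  have h2 : (- eps C).coeff (z * g) = - (eps C).coeff (z * g) := by simp
  rw [h2] at h1
  omega

theorem exists_eps_ne_zero (χ : C →* ℂ) (hχ : Function.Injective χ) :
    ∃ g, (eps C).coeff g ≠ 0 := by
  by_contra h
  push Not at h
  apply lift_eps_ne_zero χ hχ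
  rw [lift_eq_sum]
  exact Finset.sum_eq_zero fun g _ => by rw [h, zero_smul]

/-- Faithful characters of a cyclic group have the same kernel on the integral group ring. -/
theorem sum_faithful_zero (χ χ' : C →* ℂ) (hχ : Function.Injective χ)
    (hχ' : Function.Injective χ') (W : C → ℤ) (h : ∑ g, (W g : ℂ) * χ g = 0) :
    ∑ g, (W g : ℂ) * χ' g = 0 := by
  classical
  have hcyc : IsCyclic C := isCyclic_of_injective_ringHom χ hχ
  obtain ⟨γ, hγ⟩ := hcyc.exists_generator
  let d := orderOf γ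
  have hd : 0 < d := orderOf_pos γ
  have hprim : ∀ χ : C →* ℂ, Function.Injective χ → IsPrimitiveRoot (χ γ) d := by
    intro χ hχ
    have h1 := IsPrimitiveRoot.orderOf (χ γ)
    rwa [orderOf_injective χ hχ γ] at h1
  have hsum : ∀ χ : C →* ℂ, ∑ g, (W g : ℂ) * χ g =
      ∑ k ∈ Finset.range d, (W (γ ^ k) : ℂ) * χ γ ^ k := by
    intro χ
    symm
    refine Finset.sum_bij (fun k _ => γ ^ k) (fun _ _ => Finset.mem_univ _) ?_ ?_ ?_
    · intro a ha b hb hab
      exact pow_injOn_Iio_orderOf (Finset.mem_range.1 ha) (Finset.mem_range.1 hb) hab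
    · intro g _
      have h1 : g ∈ Submonoid.powers γ := mem_powers_iff_mem_zpowers.2 (hγ g)
      rw [mem_powers_iff_mem_range_orderOf] at h1
      obtain ⟨k, hk, hk'⟩ := Finset.mem_image.1 h1
      exact ⟨k, hk, hk'⟩
    · intro k _
      rw [map_pow]
  let P : Polynomial ℤ := ∑ k ∈ Finset.range d, Polynomial.C (W (γ ^ k)) * Polynomial.X ^ k
  have hP : ∀ χ : C →* ℂ, Polynomial.aeval (χ γ) P = ∑ g, (W g : ℂ) * χ g := by
    intro χ
    rw [hsum, map_sum]
    refine Finset.sum_congr rfl fun k _ => ?_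
    rw [map_mul, map_pow, Polynomial.aeval_X, Polynomial.aeval_C]
    rfl
  have h1 : Polynomial.aeval (χ γ) P = 0 := (hP χ).trans h
  have h5 : IsIntegral ℤ (χ γ) := (hprim χ hχ).isIntegral hd
  have h2 : minpoly ℤ (χ γ) ∣ P := minpoly.isIntegrallyClosed_dvd h5 h1
  rw [← Polynomial.cyclotomic_eq_minpoly (hprim χ hχ) hd,
    Polynomial.cyclotomic_eq_minpoly (hprim χ' hχ') hd] at h2
  obtain ⟨Q, hQ⟩ := h2
  rw [← hP χ', hQ, map_mul, minpoly.aeval, zero_mul]

/-- A function orthogonal to all characters vanishes. -/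
theorem eq_zero_of_char (F : C → ℂ) (h : ∀ χ : C →* ℂ, ∑ g, F g * χ g = 0) (g : C) : F g = 0 := by
  classical
  have h1 : ∀ ψ : AddChar (Additive C) ℂ, ∑ x : Additive C, F x.toMul * ψ x = 0 := by
    intro ψ
    let χ : C →* ℂ :=
      { toFun := fun g => ψ (Additive.ofMul g)
        map_one' := by rw [ofMul_one, AddChar.map_zero_eq_one]
        map_mul' := fun a b => by rw [ofMul_mul, AddChar.map_add_eq_mul] }
    rw [← h χ]
    exact (Fintype.sum_equiv Additive.ofMul _ _ fun x => rfl).symm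
  have h2 : ∑ ψ : AddChar (Additive C) ℂ, (∑ x : Additive C, F x.toMul * ψ x) *
      ψ (- Additive.ofMul g) = 0 := Finset.sum_eq_zero fun ψ _ => by rw [h1, zero_mul]
  have h3 : ∑ ψ : AddChar (Additive C) ℂ, (∑ x : Additive C, F x.toMul * ψ x) *
      ψ (- Additive.ofMul g) = ∑ x : Additive C, F x.toMul *
        ∑ ψ : AddChar (Additive C) ℂ, ψ (x - Additive.ofMul g) := by
    simp only [Finset.sum_mul, Finset.mul_sum]
    rw [Finset.sum_comm]
    refine Finset.sum_congr rfl fun x _ => Finset.sum_congr rfl fun ψ _ => ?_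
    rw [sub_eq_add_neg, AddChar.map_add_eq_mul, mul_assoc]
  rw [h2] at h3
  simp only [AddChar.sum_apply_eq_ite] at h3
  rw [Finset.sum_eq_single (Additive.ofMul g)] at h3
  · rw [sub_self, if_pos rfl] at h3
    have h4 : (Fintype.card (Additive C) : ℂ) ≠ 0 := by exact_mod_cast Fintype.card_ne_zero
    exact (mul_eq_zero.1 h3.symm).resolve_right h4
  · intro x _ hx
    rw [if_neg (sub_ne_zero.2 hx), mul_zero]
  · intro hx
    exact absurd (Finset.mem_univ _) hx

/-- If one faithful character vanishes on `W`, the product of `W` and `eps` is zero. -/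
theorem eps_conv_zero (χ : C →* ℂ) (hχ : Function.Injective χ) (W : C → ℤ)
    (h : ∑ g, (W g : ℂ) * χ g = 0) (k : C) : ∑ g, (eps C).coeff g * W (k * g) = 0 := by
  classical
  have key : ((∑ g, (eps C).coeff g * W (k * g) : ℤ) : ℂ) = 0 := by
    refine eq_zero_of_char (fun k => ((∑ g, (eps C).coeff g * W (k * g) : ℤ) : ℂ)) ?_ k
    intro ψ
    have h0 : ∀ g : C, ψ g * ψ g⁻¹ = 1 := fun g => by rw [← map_mul, mul_inv_cancel, map_one]
    let ψ' : C →* ℂ := ψ.comp (invMonoidHom : C →* C)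
    have h1 : ∑ k, ((∑ g, (eps C).coeff g * W (k * g) : ℤ) : ℂ) * ψ k =
        (∑ g, ((eps C).coeff g : ℂ) * ψ' g) * ∑ k, (W k : ℂ) * ψ k := by
      push_cast
      rw [Finset.sum_mul_sum]
      simp only [Finset.sum_mul]
      rw [Finset.sum_comm]
      refine Finset.sum_congr rfl fun g _ => ?_
      refine Fintype.sum_equiv (Equiv.mulRight g) _ _ fun k => ?_
      rw [Equiv.coe_mulRight, map_mul]
      change _ = ((eps C).coeff g : ℂ) * ψ g⁻¹ * ((W (k * g) : ℂ) * (ψ k * ψ g))
      have := h0 g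
      linear_combination ((eps C).coeff g : ℂ) * (W (k * g) : ℂ) * ψ k * (-this)
    rw [h1]
    by_cases hψ : Function.Injective ψ
    · rw [sum_faithful_zero χ ψ hχ hψ W h, mul_zero]
    · have hψ' : ¬ Function.Injective ψ' := by
        intro hi
        apply hψ
        intro a b hab
        have : ψ' a⁻¹ = ψ' b⁻¹ := by
          change ψ (a⁻¹)⁻¹ = ψ (b⁻¹)⁻¹
          rw [inv_inv, inv_inv, hab]
        exact inv_injective (hi this)
      have h2 := lift_eps_eq_zero ψ' hψ'
      rw [lift_eq_sum] at h2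
      simp only [zsmul_eq_mul] at h2
      rw [h2, zero_mul]
  exact_mod_cast key

end

end Run7.h16.AB
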