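import Mathlib
import Pool.Agent.Run7.h16.AB.GR

/-!
# The action of the group ring on the multiplicative group of an abelian extension
-/

set_option linter.unusedSectionVars false
set_option linter.unusedVariables false

namespace Run7.h16.AB

open Finset
open scoped IsMulCommutative

noncomputable section

/-- The elements of proper subfields. -/
def smaller (T : Type*) [Field T] : Set T := {y : T | ∃ F : Subfield T, F ≠ ⊤ ∧ y ∈ F}

theorem inv_mem_closure {T : Type*} [Field T] {y : T} (hy : y ∈ Submonoid.closure (smaller T)) :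
    y⁻¹ ∈ Submonoid.closure (smaller T) := by
  induction hy using Submonoid.closure_induction with
  | mem y hy =>
    obtain ⟨F, hF, hy⟩ := hy
    exact Submonoid.subset_closure ⟨F, hF, F.inv_mem hy⟩
  | one => rw [inv_one]; exact one_mem _
  | mul x y _ _ hx hy => rw [mul_inv]; exact mul_mem hx hy

/-- The units that are products of elements of proper subfields. -/
def Q (T : Type*) [Field T] : AddSubgroup (Additive Tˣ) where
  carrier := {v | ((Additive.toMul v : Tˣ) : T) ∈ Submonoid.closure (smaller T)}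
  add_mem' := fun {a b} ha hb => by
    change ((Additive.toMul (a + b) : Tˣ) : T) ∈ Submonoid.closure (smaller T)
    rw [toMul_add, Units.val_mul]
    exact mul_mem ha hb
  zero_mem' := by
    change ((Additive.toMul (0 : Additive Tˣ) : Tˣ) : T) ∈ Submonoid.closure (smaller T)
    rw [toMul_zero, Units.val_one]
    exact one_mem _
  neg_mem' := fun {a} ha => by
    change ((Additive.toMul (-a) : Tˣ) : T) ∈ Submonoid.closure (smaller T)
    rw [toMul_neg, Units.val_inv_eq_inv_val]
    exact inv_mem_closure ha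

theorem mem_Q {T : Type*} [Field T] {v : Additive Tˣ} :
    v ∈ Q T ↔ ((Additive.toMul v : Tˣ) : T) ∈ Submonoid.closure (smaller T) := Iff.rfl

/-- The action of the Galois group. -/
def rho (T : Type*) [Field T] [Algebra ℚ T] : (T ≃ₐ[ℚ] T) →* Module.End ℤ (Additive Tˣ) where
  toFun g := (MonoidHom.toAdditive (Units.map (g : T →* T))).toIntLinearMap
  map_one' := by
    ext x
    rfl
  map_mul' a b := by
    ext x
    rfl

variable {T : Type*} [Field T] [Algebra ℚ T] [FiniteDimensional ℚ T] [IsAbelianGalois ℚ T]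

theorem rho_val (g : T ≃ₐ[ℚ] T) (v : Additive Tˣ) :
    ((Additive.toMul (rho T g v) : Tˣ) : T) = g ((Additive.toMul v : Tˣ) : T) := rfl

/-- The action of the group ring. -/
def act (a : MonoidAlgebra ℤ (T ≃ₐ[ℚ] T)) : Module.End ℤ (Additive Tˣ) :=
  MonoidAlgebra.lift ℤ (Module.End ℤ (Additive Tˣ)) (T ≃ₐ[ℚ] T) (rho T) a

instance : Fintype (T ≃ₐ[ℚ] T) := Fintype.ofFinite _

theorem act_apply (a : MonoidAlgebra ℤ (T ≃ₐ[ℚ] T)) (v : Additive Tˣ) :
    act a v = ∑ g, a.coeff g • rho T g v := by
  unfold act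
  rw [lift_eq_sum]
  rw [LinearMap.sum_apply]
  rfl

theorem val_sum (f : (T ≃ₐ[ℚ] T) → Additive Tˣ) :
    ((Additive.toMul (∑ g, f g) : Tˣ) : T) = ∏ g, ((Additive.toMul (f g) : Tˣ) : T) := by
  rw [toMul_sum, Units.coe_prod]

theorem act_val (a : MonoidAlgebra ℤ (T ≃ₐ[ℚ] T)) (v : Additive Tˣ) :
    ((Additive.toMul (act a v) : Tˣ) : T) =
      ∏ g : T ≃ₐ[ℚ] T, (g ((Additive.toMul v : Tˣ) : T)) ^ (a.coeff g) := by
  rw [act_apply, val_sum]
  refine Finset.prod_congr rfl fun g _ => ?_
  rw [toMul_zsmul, Units.val_zpow_eq_zpow_val, rho_val]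

open Classical in
theorem act_del (H : Subgroup (T ≃ₐ[ℚ] T)) (v : Additive Tˣ) :
    act (del H) v = Nat.card H • v - ∑ h : T ≃ₐ[ℚ] T, if h ∈ H then rho T h v else 0 := by
  unfold act
  rw [lift_del, LinearMap.sub_apply, LinearMap.sum_apply]
  congr 1
  refine Finset.sum_congr rfl fun h _ => ?_
  split_ifs <;> rfl

/-- A proper subfield is fixed by a nontrivial subgroup. -/
theorem exists_subgroup {F : Subfield T} (hF : F ≠ ⊤) :
    ∃ H : Subgroup (T ≃ₐ[ℚ] T), H ≠ ⊥ ∧ ∀ h ∈ H, ∀ y ∈ F, h y = y := by
  let F' : IntermediateField ℚ T := F.toIntermediateField (fun r => by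
    rw [eq_ratCast]
    exact SubfieldClass.ratCast_mem F r)
  refine ⟨F'.fixingSubgroup, fun h => hF ?_, fun h hh y hy => ?_⟩
  · have h1 : F' = ⊤ := by
      rw [← IsGalois.fixedField_fixingSubgroup F', h, IntermediateField.fixedField_bot]
    ext y
    constructor
    · intro _; exact Subfield.mem_top y
    · intro _
      have h2 : y ∈ F' := by rw [h1]; exact IntermediateField.mem_top
      exact h2
  · exact (IntermediateField.mem_fixingSubgroup_iff F' h).1 hh y hy

/-- The fixed field of a nontrivial subgroup is a proper subfield. -/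
theorem mem_smaller {H : Subgroup (T ≃ₐ[ℚ] T)} (hH : H ≠ ⊥) {y : T} (hy : ∀ h ∈ H, h y = y) :
    y ∈ smaller T := by
  refine ⟨(IntermediateField.fixedField H).toSubfield, fun h => ?_, ?_⟩
  · obtain ⟨h₀, hh, hne⟩ := exists_mem_ne_one hH
    apply hne
    ext x
    have h1 : x ∈ (IntermediateField.fixedField H).toSubfield := by
      rw [h]; exact Subfield.mem_top x
    exact (IntermediateField.mem_fixedField_iff H x).1 h1 h₀ hh
  · exact (IntermediateField.mem_fixedField_iff H y).2 hy

open Classical in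
theorem sum_mem_Q {H : Subgroup (T ≃ₐ[ℚ] T)} (hH : H ≠ ⊥) (v : Additive Tˣ) :
    ∑ h : T ≃ₐ[ℚ] T, (if h ∈ H then rho T h v else 0) ∈ Q T := by
  rw [mem_Q]
  apply Submonoid.subset_closure
  apply mem_smaller hH
  intro h hh
  rw [← rho_val, map_sum]
  congr 2
  refine Fintype.sum_equiv (Equiv.mulLeft h) _ _ fun g => ?_
  rw [Equiv.coe_mulLeft]
  by_cases h2 : g ∈ H
  · rw [if_pos h2, if_pos (H.mul_mem hh h2), map_mul]
    rfl
  · rw [if_neg h2, if_neg (fun h3 => h2 ((H.mul_mem_cancel_left hh).1 h3)), map_zero]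

theorem act_mul (a b : MonoidAlgebra ℤ (T ≃ₐ[ℚ] T)) (v : Additive Tˣ) :
    act (a * b) v = act a (act b v) := by
  unfold act
  rw [map_mul]
  rfl

/-- Up to products of elements of proper subfields, `eps` acts as a positive power. -/
theorem act_eps_mem (v : Additive Tˣ) :
    ∃ N : ℕ, 0 < N ∧ act (eps (T ≃ₐ[ℚ] T)) v - N • v ∈ Q T := by
  classical
  unfold eps
  induction (Finset.univ : Finset {H : Subgroup (T ≃ₐ[ℚ] T) // H ≠ ⊥}) using Finset.induction_on with
  | empty =>
    refine ⟨1, one_pos, ?_⟩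
    rw [Finset.prod_empty]
    have h1 : act (1 : MonoidAlgebra ℤ (T ≃ₐ[ℚ] T)) v = v := by
      unfold act
      rw [map_one]
      rfl
    rw [h1, one_smul, sub_self]
    exact zero_mem _
  | insert H s hH ih =>
    obtain ⟨N, hN, h1⟩ := ih
    refine ⟨Nat.card H.1 * N, Nat.mul_pos Nat.card_pos hN, ?_⟩
    rw [Finset.prod_insert hH, act_mul, act_del]
    have h2 := sum_mem_Q H.2 (act (∏ x ∈ s, del x.1) v)
    have h3 : ∀ x S : Additive Tˣ, Nat.card H.1 • x - S - (Nat.card H.1 * N) • v =
        Nat.card H.1 • (x - N • v) - S := by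
      intro x S
      rw [nsmul_sub, mul_nsmul']
      abel
    rw [h3]
    exact sub_mem (nsmul_mem h1 _) h2

/-- `eps` annihilates the products of elements of proper subfields. -/
theorem act_eps_zero (v : Additive Tˣ) (hv : v ∈ Q T) : act (eps (T ≃ₐ[ℚ] T)) v = 0 := by
  classical
  have key : ∀ y : T, y ∈ Submonoid.closure (smaller T) → ∀ hy : y ≠ 0,
      act (eps (T ≃ₐ[ℚ] T)) (Additive.ofMul (Units.mk0 y hy)) = 0 := by
    intro y hy
    induction hy using Submonoid.closure_induction with
    | mem y hy =>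
      intro hy0
      obtain ⟨F, hF, hyF⟩ := hy
      obtain ⟨H, hH, hfix⟩ := exists_subgroup hF
      unfold eps
      rw [← Finset.mul_prod_erase _ _
        (Finset.mem_univ (⟨H, hH⟩ : {H : Subgroup (T ≃ₐ[ℚ] T) // H ≠ ⊥})), mul_comm, act_mul]
      have h1 : act (del H) (Additive.ofMul (Units.mk0 y hy0)) = 0 := by
        rw [act_del]
        have h2 : ∑ h : T ≃ₐ[ℚ] T, (if h ∈ H then rho T h (Additive.ofMul (Units.mk0 y hy0))
            else 0) = ∑ h : T ≃ₐ[ℚ] T, if h ∈ H then Additive.ofMul (Units.mk0 y hy0) else 0 := by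
          refine Finset.sum_congr rfl fun h _ => ?_
          split_ifs with h3
          · apply Additive.toMul.injective
            apply Units.ext
            rw [rho_val]
            exact hfix h h3 y hyF
          · rfl
        rw [h2, ← Finset.sum_filter, Finset.sum_const, sub_eq_zero, Nat.card_eq_fintype_card,
          Fintype.card_subtype]
      change act _ (act (del H) _) = 0
      rw [h1, map_zero]
    | one =>
      intro hy0
      have : Additive.ofMul (Units.mk0 (1 : T) hy0) = 0 := by
        rw [Units.mk0_one]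
        rfl
      rw [this, map_zero]
    | mul x y _ _ hx hy =>
      intro h0
      have hx0 : x ≠ 0 := left_ne_zero_of_mul h0
      have hy0 : y ≠ 0 := right_ne_zero_of_mul h0
      have : Additive.ofMul (Units.mk0 (x * y) h0) = Additive.ofMul (Units.mk0 x hx0) +
          Additive.ofMul (Units.mk0 y hy0) := by
        rw [← ofMul_mul]
        congr 1
        exact Units.ext rfl
      rw [this, map_add, hx hx0, hy hy0, add_zero]
  have h1 := key _ hv (Units.ne_zero _)
  have h2 : Additive.ofMul (Units.mk0 (((Additive.toMul v : Tˣ) : T)) (Units.ne_zero _)) = v := by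
    rw [Units.mk0_val]
    rfl
  rw [h2] at h1
  exact h1

end

end Run7.h16.AB
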