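import Mathlib
import Pool.Agent.Run7.h16.AB.GR

/-!
# Relations between translates of functions on commutative quotients
-/

set_option linter.unusedSectionVars false
set_option linter.unusedVariables false

namespace Run7.h16.AB

open Finset

noncomputable section

/-- The inverse character. -/
def invChar {A : Type*} [CommGroup A] (θ : A →* ℂ) : A →* ℂ := θ.comp (invMonoidHom : A →* A)

theorem mul_invChar {A : Type*} [CommGroup A] (θ : A →* ℂ) (a : A) : θ a * invChar θ a = 1 := by
  change θ a * θ a⁻¹ = 1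
  rw [← map_mul, mul_inv_cancel, map_one]

theorem exists_descend {Γ A B : Type*} [Group Γ] [CommGroup A] [CommGroup B] (r : Γ →* A)
    (r' : Γ →* B) (hr' : Function.Surjective r') (θ : A →* ℂ)
    (h : ∀ τ, r' τ = 1 → θ (r τ) = 1) : ∃ θ' : B →* ℂ, θ.comp r = θ'.comp r' := by
  choose s hs using hr'
  have key : ∀ σ σ' : Γ, r' σ = r' σ' → θ (r σ) = θ (r σ') := by
    intro σ σ' hh
    have h1 : r' (σ * σ'⁻¹) = 1 := by rw [map_mul, map_inv, hh, mul_inv_cancel]
    have h2 := h _ h1
    have h3 : θ (r σ) = θ (r (σ * σ'⁻¹)) * θ (r σ') := by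
      rw [← map_mul, ← map_mul, inv_mul_cancel_right]
    rw [h3, h2, one_mul]
  refine ⟨{ toFun := fun b => θ (r (s b)), map_one' := ?_, map_mul' := ?_ }, ?_⟩
  · rw [key (s 1) 1 (by rw [hs, map_one]), map_one, map_one]
  · intro a b
    rw [key (s (a * b)) (s a * s b) (by rw [hs, map_mul, hs, hs]), map_mul, map_mul]
  · ext σ
    exact key _ _ (hs _).symm

theorem free_core {Γ : Type*} [Group Γ] [Fintype Γ] {ι : Type*} [Fintype ι] {A : ι → Type*}
    [∀ i, CommGroup (A i)] [∀ i, Fintype (A i)] (r : ∀ i, Γ →* A i)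
    (hr : ∀ i, Function.Surjective (r i)) (z : Γ)
    (c W : ∀ i, A i → ℤ) (hc : ∀ i a, c i (r i z * a) = - c i a)
    (hrel : ∀ σ : Γ, ∑ i, ∑ a : A i, c i a * W i (a * r i σ) = 0)
    (hB : ∀ i i' (θ : A i →* ℂ) (θ' : A i' →* ℂ), θ (r i z) ≠ 1 →
      θ.comp (r i) = θ'.comp (r i') → i = i')
    (hA : ∀ i (θ : A i →* ℂ), θ (r i z) ≠ 1 → ∑ a, (W i a : ℂ) * θ a ≠ 0)
    (i : ι) (a : A i) : c i a = 0 := by
  classical
  have key : (c i a : ℂ) = 0 := by
    refine eq_zero_of_char (fun a => (c i a : ℂ)) (fun θ => ?_) a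
    by_cases hθ : θ (r i z) = 1
    · have h1 : ∑ g, (c i g : ℂ) * θ g = - ∑ g, (c i g : ℂ) * θ g := by
        rw [← Finset.sum_neg_distrib]
        refine (Fintype.sum_equiv (Equiv.mulLeft (r i z)) _ _ fun g => ?_).symm
        rw [Equiv.coe_mulLeft, map_mul, hθ, one_mul, hc]
        push_cast
        ring
      exact self_eq_neg.1 h1
    -- odd characters
    let D : ι → ℂ := fun i' => ∑ σ : Γ, invChar θ (r i σ) *
      ∑ a : A i', (c i' a : ℂ) * (W i' (a * r i' σ) : ℂ)
    have hDsum : ∑ i', D i' = 0 := by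
      simp only [D]
      rw [Finset.sum_comm]
      refine Finset.sum_eq_zero fun σ _ => ?_
      rw [← Finset.mul_sum]
      have h1 := hrel σ
      have h2 : (∑ i', ∑ a : A i', (c i' a : ℂ) * (W i' (a * r i' σ) : ℂ)) = 0 := by
        exact_mod_cast h1
      rw [h2, mul_zero]
    have hDne : ∀ i', i' ≠ i → D i' = 0 := by
      intro i' hne
      obtain ⟨τ, hτ, hτ'⟩ : ∃ τ, r i' τ = 1 ∧ θ (r i τ) ≠ 1 := by
        by_contra hcon
        push Not at hcon
        obtain ⟨θ', hθ'⟩ := exists_descend (r i) (r i') (hr i') θ hcon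
        exact hne (hB i i' θ θ' hθ hθ').symm
      have h1 : D i' = invChar θ (r i τ) * D i' := by
        simp only [D]
        rw [Finset.mul_sum]
        refine (Fintype.sum_equiv (Equiv.mulLeft τ) _ _ fun σ => ?_).symm
        rw [Equiv.coe_mulLeft, map_mul, map_mul, map_mul, hτ, one_mul, mul_assoc]
      have h2 : (θ (r i τ) - 1) * D i' = 0 := by
        have h3 := mul_invChar θ (r i τ)
        have h4 : θ (r i τ) * D i' = D i' := by
          conv_lhs => rw [h1]
          rw [← mul_assoc, h3, one_mul]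
        rw [sub_mul, one_mul, h4, sub_self]
      exact (mul_eq_zero.1 h2).resolve_left (sub_ne_zero.2 hτ')
    have hDi : D i = 0 := by
      rw [Finset.sum_eq_single i (fun i' _ hne => hDne i' hne)
        (fun h => absurd (Finset.mem_univ _) h)] at hDsum
      exact hDsum
    let f : A i → ℂ := fun b => invChar θ b * ∑ a : A i, (c i a : ℂ) * (W i (a * b) : ℂ)
    choose s hs using hr i
    have hf1 : ∑ b : A i, ∑ σ : Γ, f (r i (σ * s b)) = 0 := by
      refine Finset.sum_eq_zero fun b _ => ?_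
      rw [Fintype.sum_equiv (Equiv.mulRight (s b)) (fun σ => f (r i (σ * s b)))
        (fun σ => f (r i σ)) (fun σ => rfl)]
      exact hDi
    have hf2 : ∑ b : A i, ∑ σ : Γ, f (r i (σ * s b)) = (Fintype.card Γ : ℂ) * ∑ b, f b := by
      rw [Finset.sum_comm]
      have h1 : ∀ σ : Γ, ∑ b : A i, f (r i (σ * s b)) = ∑ b, f b := by
        intro σ
        refine Fintype.sum_equiv (Equiv.mulLeft (r i σ)) _ _ fun b => ?_
        rw [Equiv.coe_mulLeft, map_mul, hs]
      rw [Finset.sum_congr rfl (fun σ _ => h1 σ), Finset.sum_const, nsmul_eq_mul,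
        Finset.card_univ]
    have hf3 : ∑ b, f b = 0 := by
      rw [hf1] at hf2
      have h4 : (Fintype.card Γ : ℂ) ≠ 0 := by exact_mod_cast Fintype.card_ne_zero
      exact (mul_eq_zero.1 hf2.symm).resolve_left h4
    have hf4 : ∑ b, f b = (∑ g, (c i g : ℂ) * θ g) * ∑ b, (W i b : ℂ) * invChar θ b := by
      simp only [f, Finset.mul_sum]
      rw [Finset.sum_comm]
      rw [← Finset.mul_sum]
      simp only [Finset.sum_mul]
      refine Finset.sum_congr rfl fun g _ => ?_
      rw [Finset.mul_sum]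
      refine Fintype.sum_equiv (Equiv.mulLeft g) _ _ fun b => ?_
      rw [Equiv.coe_mulLeft, map_mul]
      have h1 := mul_invChar θ g
      linear_combination (invChar θ b * (c i g : ℂ) * (W i (g * b) : ℂ)) * (-h1)
    rw [hf3] at hf4
    refine (mul_eq_zero.1 hf4.symm).resolve_right (hA i (invChar θ) fun h => hθ ?_)
    have h1 := mul_invChar θ (r i z)
    rw [h, mul_one] at h1
    exact h1
  exact_mod_cast key

end

end Run7.h16.AB
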