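import Mathlib
import Pool.Agent.Run7.h16.AB.Core
import Pool.Agent.Run7.h16.AB.Act
import Pool.Agent.W527.TwoPairsTate

/-!
# Weil numbers in abelian CM fields: the criterion is sufficient
-/

set_option linter.unusedSectionVars false
set_option linter.unusedVariables false

namespace Run7.h16.AB

open NumberField Module Pool.Agent.H204R3.CM Pool.Agent.H977R3.WN Pool.Agent.H485R3.Exact
  Pool.Agent.W527
open scoped IsMulCommutative

noncomputable section

section emb

variable {K L : Type*} [Field K] [CharZero K] [Algebra ℚ K] [FiniteDimensional ℚ K]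
  [IsAbelianGalois ℚ K] [Field L] [NumberField L] [IsGalois ℚ L]

theorem exists_rr (φ₀ : K →+* L) : ∃ r : (L ≃ₐ[ℚ] L) →* (K ≃ₐ[ℚ] K), Function.Surjective r ∧
    ∀ σ x, φ₀ (r σ x) = σ (φ₀ x) := by
  letI := φ₀.toAlgebra
  haveI : IsScalarTower ℚ K L := IsScalarTower.of_algebraMap_eq' (Subsingleton.elim _ _)
  refine ⟨AlgEquiv.restrictNormalHom K, AlgEquiv.restrictNormalHom_surjective L, fun σ x => ?_⟩
  exact AlgEquiv.restrictNormal_commutes σ K x

/-- The composition of an embedding and an automorphism. -/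
def em (φ₀ : K →+* L) (g : K ≃ₐ[ℚ] K) : K →+* L := φ₀.comp (g : K →+* K)

theorem em_apply (φ₀ : K →+* L) (g : K ≃ₐ[ℚ] K) (x : K) : em φ₀ g x = φ₀ (g x) := rfl

theorem em_one (φ₀ : K →+* L) : em φ₀ 1 = φ₀ := rfl

variable {φ₀ : K →+* L} {r : (L ≃ₐ[ℚ] L) →* (K ≃ₐ[ℚ] K)}
  (hr : ∀ σ x, φ₀ (r σ x) = σ (φ₀ x))

include hr in
theorem smul_em (σ : L ≃ₐ[ℚ] L) (g : K ≃ₐ[ℚ] K) : σ • em φ₀ g = em φ₀ (g * r σ) := by
  rw [mul_comm]
  ext x
  change σ (φ₀ (g x)) = φ₀ (r σ (g x))
  rw [hr]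

theorem em_injective (φ₀ : K →+* L) : Function.Injective (em φ₀) := by
  intro g h hh
  ext x
  exact φ₀.injective (RingHom.congr_fun hh x)

theorem em_surjective (φ₀ : K →+* L) : Function.Surjective (em φ₀) := by
  intro φ
  obtain ⟨r, -, hr⟩ := exists_rr φ₀
  obtain ⟨σ, hσ⟩ := MulAction.exists_smul_eq (L ≃ₐ[ℚ] L) φ₀ φ
  refine ⟨r σ, ?_⟩
  rw [← hσ, ← one_mul (r σ), ← smul_em hr, em_one]

/-- Automorphisms and embeddings correspond. -/
def emEquiv (φ₀ : K →+* L) : (K ≃ₐ[ℚ] K) ≃ (K →+* L) :=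
  Equiv.ofBijective (em φ₀) ⟨em_injective φ₀, em_surjective φ₀⟩

end emb

section fixed

variable {K L : Type} [Field K] [NumberField K] [IsAbelianGalois ℚ K]
  [Field L] [NumberField L] [IsGalois ℚ L]
  {φ₀ : K →+* L} {r : (L ≃ₐ[ℚ] L) →* (K ≃ₐ[ℚ] K)} (hrs : Function.Surjective r)
  (hr : ∀ σ x, φ₀ (r σ x) = σ (φ₀ x))

include hrs hr in
/-- The image of the fixed field of the kernel of a character. -/
theorem image_fixed (θ : (K ≃ₐ[ℚ] K) →* ℂ) (y : L) :
    (∀ σ : L ≃ₐ[ℚ] L, θ (r σ) = 1 → σ y = y) ↔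
      ∃ x ∈ IntermediateField.fixedField θ.ker, φ₀ x = y := by
  constructor
  · intro h
    obtain ⟨x, rfl⟩ := mem_range_of_fixed φ₀ y (fun g hg => by
      apply h
      have h1 : r g = 1 := by
        ext x
        apply φ₀.injective
        rw [hr]
        exact RingHom.congr_fun hg x
      rw [h1, map_one])
    refine ⟨x, ?_, rfl⟩
    rw [IntermediateField.mem_fixedField_iff]
    intro g hg
    obtain ⟨σ, rfl⟩ := hrs g
    apply φ₀.injective
    rw [hr]
    exact h σ hg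
  · rintro ⟨x, hx, rfl⟩ σ hσ
    rw [← hr, (IntermediateField.mem_fixedField_iff _ x).1 hx (r σ) hσ]

end fixed

/-- Fixed fields of the kernels of characters that agree on the Galois group are isomorphic. -/
theorem exists_iso {K K' L : Type} [Field K] [NumberField K] [IsAbelianGalois ℚ K]
    [Field K'] [NumberField K'] [IsAbelianGalois ℚ K'] [Field L] [NumberField L] [IsGalois ℚ L]
    {φ₀ : K →+* L} {r : (L ≃ₐ[ℚ] L) →* (K ≃ₐ[ℚ] K)} (hrs : Function.Surjective r)
    (hr : ∀ σ x, φ₀ (r σ x) = σ (φ₀ x))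
    {φ₀' : K' →+* L} {r' : (L ≃ₐ[ℚ] L) →* (K' ≃ₐ[ℚ] K')} (hrs' : Function.Surjective r')
    (hr' : ∀ σ x, φ₀' (r' σ x) = σ (φ₀' x)) (θ : (K ≃ₐ[ℚ] K) →* ℂ) (θ' : (K' ≃ₐ[ℚ] K') →* ℂ)
    (h : θ.comp r = θ'.comp r') :
    Nonempty (IntermediateField.fixedField θ.ker ≃+* IntermediateField.fixedField θ'.ker) := by
  let f : IntermediateField.fixedField θ.ker →+* L := φ₀.comp (algebraMap _ K)
  let f' : IntermediateField.fixedField θ'.ker →+* L := φ₀'.comp (algebraMap _ K')
  have h1 : f.range = f'.range := by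
    ext y
    have e1 : y ∈ f.range ↔ ∃ x ∈ IntermediateField.fixedField θ.ker, φ₀ x = y := by
      constructor
      · rintro ⟨x, rfl⟩
        exact ⟨x, x.2, rfl⟩
      · rintro ⟨x, hx, rfl⟩
        exact ⟨⟨x, hx⟩, rfl⟩
    have e2 : y ∈ f'.range ↔ ∃ x ∈ IntermediateField.fixedField θ'.ker, φ₀' x = y := by
      constructor
      · rintro ⟨x, rfl⟩
        exact ⟨x, x.2, rfl⟩
      · rintro ⟨x, hx, rfl⟩
        exact ⟨⟨x, hx⟩, rfl⟩
    rw [e1, e2, ← image_fixed hrs hr, ← image_fixed hrs' hr']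
    have h2 : ∀ σ, θ (r σ) = θ' (r' σ) := fun σ => DFunLike.congr_fun h σ
    simp only [h2]
  let e : IntermediateField.fixedField θ.ker ≃+* f.range :=
    RingEquiv.ofBijective f.rangeRestrict
      ⟨fun a b hab => f.injective (congrArg Subtype.val hab), f.rangeRestrict_surjective⟩
  let e' : IntermediateField.fixedField θ'.ker ≃+* f'.range :=
    RingEquiv.ofBijective f'.rangeRestrict
      ⟨fun a b hab => f'.injective (congrArg Subtype.val hab), f'.rangeRestrict_surjective⟩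
  exact ⟨(e.trans (RingEquiv.subringCongr h1)).trans e'.symm⟩

theorem nonReal_fixed {K : Type} [Field K] [NumberField K] [IsCMField K] [IsAbelianGalois ℚ K]
    (θ : (K ≃ₐ[ℚ] K) →* ℂ) (z : K ≃ₐ[ℚ] K) (hz : ∀ x, z x = IsCMField.complexConj K x)
    (h : θ z ≠ 1) : NonReal (IntermediateField.fixedField θ.ker) := by
  by_contra hcon
  unfold NonReal at hcon
  push Not at hcon
  apply h
  have h1 : z ∈ (IntermediateField.fixedField θ.ker).fixingSubgroup := by
    rw [IntermediateField.mem_fixingSubgroup_iff]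
    intro x hx
    rw [hz]
    exact hcon x hx
  rw [IntermediateField.fixingSubgroup_fixedField] at h1
  exact h1

end

end Run7.h16.AB
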