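import Mathlib
import Pool.Agent.Run7.h16.AB.Suff

/-!
# Weil numbers in abelian CM fields: the criterion is sufficient
-/

set_option linter.unusedSectionVars false
set_option linter.unusedVariables false

namespace Run7.h16.AB

open NumberField Module Pool.Agent.H204R3.CM Pool.Agent.H977R3.WN Pool.Agent.H485R3.Exact
  Pool.Agent.W527
open scoped IsMulCommutative

noncomputable section

variable {p : ℕ} [hp : Fact p.Prime] {K L : Type} [Field K] [NumberField K] [IsCMField K]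
  [IsAbelianGalois ℚ K] [Field L] [NumberField L] [IsGalois ℚ L] (j : L →+* ℂ)
  (h : ∀ ψ : K →+* ℂ, ∃ φ : K →+* L, j.comp φ = ψ) {m : ℕ} {π : K}

instance abelian_sub (T : IntermediateField ℚ K) : IsAbelianGalois ℚ T :=
  IsAbelianGalois.of_algHom (algebraMap T K).toRatAlgHom

theorem natCast_mem_smaller {T : Type*} [Field T] [Algebra ℚ T] [FiniteDimensional ℚ T]
    [IsAbelianGalois ℚ T] {z : T ≃ₐ[ℚ] T} (hz : z ≠ 1) (n : ℕ) : (n : T) ∈ smaller T := by
  refine mem_smaller (H := ⊤) (fun h => hz ?_) (fun h _ => map_natCast h n)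
  have h1 : z ∈ (⊤ : Subgroup (T ≃ₐ[ℚ] T)) := Subgroup.mem_top z
  rw [h, Subgroup.mem_bot] at h1
  exact h1

include h in
theorem char_ne_zero (hint : IsIntegral ℤ π)
    (hweil : ∀ φ : K →+* ℂ, ‖φ π‖ ^ 2 = (p : ℝ) ^ m) {κ : ℚ} {u : (K →+* PadicAlgCl p) → ℤ}
    (hu : ∀ τ : K →+* PadicAlgCl p, 2 * (- Real.logb p ‖τ π‖) - m = (κ : ℝ) * u τ)
    (jp : L →+* PadicAlgCl p) (φ₀ : K →+* L)
    (hA : ∀ T : IntermediateField ℚ K, ¬ IsTotallyReal T → IsCyclic (T ≃ₐ[ℚ] T) →
      ∀ n : ℕ, 0 < n → Algebra.norm T π ^ n ∉ Submonoid.closure (smaller T))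
    (z : K ≃ₐ[ℚ] K) (hz : ∀ x, z x = IsCMField.complexConj K x)
    (θ : (K ≃ₐ[ℚ] K) →* ℂ) (hθ : θ z ≠ 1) :
    ∑ g, (u (jp.comp (em φ₀ g)) : ℂ) * θ g ≠ 0 := by
  classical
  intro h0
  let T : IntermediateField ℚ K := IntermediateField.fixedField θ.ker
  have hTn : NonReal T := nonReal_fixed θ z hz hθ
  obtain ⟨ρ, hρs, hρv'⟩ := exists_rr (algebraMap T K)
  have hρv : ∀ g (x : T), ((ρ g x : T) : K) = g x := hρv'
  have hρ1 : ∀ g, ρ g = 1 → θ ((MonoidHom.id (K ≃ₐ[ℚ] K)) g) = 1 := by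
    intro g hg
    have h1 : g ∈ T.fixingSubgroup := by
      rw [IntermediateField.mem_fixingSubgroup_iff]
      intro x hx
      have h2 := hρv g ⟨x, hx⟩
      rw [hg] at h2
      exact h2.symm
    rw [IntermediateField.fixingSubgroup_fixedField] at h1
    exact h1
  obtain ⟨θT, hθT⟩ := exists_descend (MonoidHom.id _) ρ hρs θ hρ1
  have hθT' : ∀ g, θ g = θT (ρ g) := fun g => DFunLike.congr_fun hθT g
  have hinj : Function.Injective θT := by
    rw [← MonoidHom.ker_eq_bot_iff, eq_bot_iff]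
    intro k hk
    obtain ⟨g, rfl⟩ := hρs k
    have h1 : g ∈ θ.ker := by
      change θ g = 1
      rw [hθT']
      exact hk
    rw [Subgroup.mem_bot]
    ext x
    rw [hρv]
    exact (IntermediateField.mem_fixedField_iff _ (x : K)).1 x.2 g h1
  have hzT : ρ z ≠ 1 := by
    intro h1
    apply hθ
    rw [hθT', h1, map_one]
  have hcyc : IsCyclic (T ≃ₐ[ℚ] T) := isCyclic_of_injective_ringHom θT hinj
  let ψ₀ : T →+* L := res T φ₀
  let w : (K →+* L) → ℤ := fun φ => u (jp.comp φ)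
  let W : (T ≃ₐ[ℚ] T) → ℤ := fun k => tr T w (em ψ₀ k)
  have hres : ∀ g, res T (em φ₀ g) = em ψ₀ (ρ g) := by
    intro g
    ext x
    change φ₀ (g x) = φ₀ ((ρ g x : T) : K)
    rw [hρv]
  have hWg : ∀ k, W k = ∑ g : K ≃ₐ[ℚ] K, if ρ g = k then w (em φ₀ g) else 0 := by
    intro k
    change tr T w (em ψ₀ k) = _
    unfold tr
    refine (Fintype.sum_equiv (emEquiv φ₀) _ _ fun g => ?_).symm
    change _ = if res T (em φ₀ g) = em ψ₀ k then w (em φ₀ g) else 0
    rw [hres]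
    by_cases h1 : ρ g = k
    · rw [if_pos h1, if_pos (by rw [h1])]
    · rw [if_neg h1, if_neg (fun h2 => h1 (em_injective ψ₀ h2))]
  have hW : ∑ k, (W k : ℂ) * θT k = 0 := by
    have h1 : ∑ k, (W k : ℂ) * θT k = ∑ g, (w (em φ₀ g) : ℂ) * θ g := by
      simp only [hWg]
      push_cast
      simp only [Finset.sum_mul]
      rw [Finset.sum_comm]
      refine Finset.sum_congr rfl fun g _ => ?_
      rw [Finset.sum_eq_single (ρ g)]
      · rw [if_pos rfl, hθT']
      · intro k _ hk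
        rw [if_neg (Ne.symm hk), zero_mul]
      · intro hk
        exact absurd (Finset.mem_univ _) hk
    rw [h1]
    exact h0
  have hconv := eps_conv_zero θT hinj W hW
  obtain ⟨rT, -, hrT⟩ := exists_rr ψ₀
  have hu0 : Norm.unitNorm p m T π ≠ 0 := unitNorm_ne_zero (ne_zero_of_weil hweil) T
  let v : Additive Tˣ := Additive.ofMul (Units.mk0 (Norm.unitNorm p m T π) hu0)
  have hE : ∀ e : T →+* L, e (((Additive.toMul (act (eps (T ≃ₐ[ℚ] T)) v) : Tˣ) : T)) =
      ∏ g : T ≃ₐ[ℚ] T, (e (g (Norm.unitNorm p m T π))) ^ ((eps (T ≃ₐ[ℚ] T)).coeff g) := by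
    intro e
    rw [act_val, map_prod]
    refine Finset.prod_congr rfl fun g _ => ?_
    rw [map_zpow₀]
    rfl
  obtain ⟨r, hr, hz1⟩ : ∃ r : ℕ, 0 < r ∧
      (ψ₀ (((Additive.toMul (act (eps (T ≃ₐ[ℚ] T)) v) : Tˣ) : T))) ^ r = 1 := by
    rw [hE]
    apply root_of_unity
    · intro l _ e
      by_cases hl : l = p
      · subst hl
        let ealg : L →ₐ[ℚ] PadicAlgCl l := (jp : L →+* PadicAlgCl l).toRatAlgHom
        obtain ⟨g₀, hg₀⟩ := Pool.Agent.H485R3.exists_gal ealg e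
        have hg' : ∀ x, e x = jp (g₀ x) := hg₀
        rw [hg', map_prod, map_prod, _root_.norm_prod]
        have h5 : ∀ g : T ≃ₐ[ℚ] T, 0 < ‖jp (g₀ (ψ₀ (g (Norm.unitNorm l m T π))))‖ := fun g =>
          norm_pos_iff.2 ((map_ne_zero jp).2 ((map_ne_zero g₀).2 ((map_ne_zero ψ₀).2
            ((map_ne_zero g).2 hu0))))
        have h6 : 0 < ∏ g : T ≃ₐ[ℚ] T, ‖jp (g₀ (ψ₀ (g (Norm.unitNorm l m T π)) ^
            ((eps (T ≃ₐ[ℚ] T)).coeff g)))‖ := by
          refine Finset.prod_pos fun g _ => ?_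
          rw [map_zpow₀, map_zpow₀, norm_zpow]
          exact zpow_pos (h5 g) _
        refine (Real.eq_one_of_pos_of_log_eq_zero h6 ?_).le
        rw [Real.log_prod]
        · have h7 : ∀ g : T ≃ₐ[ℚ] T, Real.log ‖jp (g₀ (ψ₀ (g (Norm.unitNorm l m T π)) ^
              ((eps (T ≃ₐ[ℚ] T)).coeff g)))‖ = - (Real.log l * κ) *
                (((eps (T ≃ₐ[ℚ] T)).coeff g * W (rT g₀ * g) : ℤ) : ℝ) := by
            intro g
            rw [map_zpow₀, map_zpow₀, norm_zpow, Real.log_zpow]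
            have h8 := log_unitNorm j h (ne_zero_of_weil hweil) hu T (g₀ • em ψ₀ g) jp
            change Real.log ‖jp (g₀ (ψ₀ (g (Norm.unitNorm l m T π))))‖ = _ at h8
            rw [h8, smul_em hrT, mul_comm g]
            change _ * -(Real.log l * κ * (W (rT g₀ * g) : ℝ)) = _
            push_cast
            ring
          rw [Finset.sum_congr rfl (fun g _ => h7 g), ← Finset.mul_sum, ← Int.cast_sum,
            hconv (rT g₀), Int.cast_zero, mul_zero]
        · intro g _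
          rw [map_zpow₀, map_zpow₀, norm_zpow]
          exact (zpow_pos (h5 g) _).ne'
      · rw [map_prod, _root_.norm_prod]
        refine (Finset.prod_eq_one fun g _ => ?_).le
        rw [map_zpow₀, norm_zpow]
        have h9 : ‖e (ψ₀ (g (Norm.unitNorm p m T π)))‖ = 1 :=
          norm_unitNorm_of_ne j h hint hweil T (em ψ₀ g) l hl (e : L →+* PadicAlgCl l)
        rw [h9, one_zpow]
    · intro e
      rw [map_prod, _root_.norm_prod]
      refine Finset.prod_eq_one fun g _ => ?_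
      rw [map_zpow₀, norm_zpow]
      have h9 : ‖e (ψ₀ (g (Norm.unitNorm p m T π)))‖ = 1 :=
        norm_unitNorm_complex j h hweil T (em ψ₀ g) (e : L →+* ℂ)
      rw [h9, one_zpow]
  have hz2 : (((Additive.toMul (act (eps (T ≃ₐ[ℚ] T)) v) : Tˣ) : T)) ^ r = 1 := by
    apply ψ₀.injective
    rw [map_pow, map_one]
    exact hz1
  have hz3 : r • act (eps (T ≃ₐ[ℚ] T)) v = 0 := by
    apply Additive.toMul.injective
    apply Units.ext
    rw [toMul_nsmul, Units.val_pow_eq_pow_val, hz2]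
    rfl
  obtain ⟨N, hN, hNQ⟩ := act_eps_mem v
  have hQ : (N * r) • v ∈ Q T := by
    have h1 := nsmul_mem hNQ r
    rw [nsmul_sub, hz3, zero_sub] at h1
    have h2 := neg_mem h1
    rw [neg_neg, ← mul_nsmul] at h2
    exact h2
  rw [mem_Q, toMul_nsmul, Units.val_pow_eq_pow_val] at hQ
  change Norm.unitNorm p m T π ^ (N * r) ∈ _ at hQ
  refine hA T ((nonReal_iff T).1 hTn) hcyc (2 * (N * r))
    (Nat.mul_pos two_pos (Nat.mul_pos hN hr)) ?_
  have hp0 : (p : T) ≠ 0 := by exact_mod_cast hp.out.ne_zero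
  have h1 : Algebra.norm T π ^ 2 = Norm.unitNorm p m T π * (p : T) ^ (m * finrank T K) := by
    unfold Norm.unitNorm
    rw [div_mul_cancel₀ _ (pow_ne_zero _ hp0)]
  rw [pow_mul, h1, mul_pow]
  exact mul_mem hQ (pow_mem (pow_mem (Submonoid.subset_closure
    (natCast_mem_smaller hzT p)) _) _)

end

end Run7.h16.AB
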