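import Mathlib
import Pool.Agent.Run7.h16.AB.Suff2

/-!
# If pairings generate, there are no relations between the slopes
-/

set_option linter.unusedSectionVars false
set_option linter.unusedVariables false

namespace Run7.h16.AB

open NumberField Module Pool.Agent.H204R3.CM Pool.Agent.H977R3.WN Pool.Agent.H485R3.Exact
  Pool.Agent.W527

noncomputable section

variable {p : ℕ} [hp : Fact p.Prime] {I : Type} [Fintype I] {K : I → Type} [∀ i, Field (K i)]
  [∀ i, NumberField (K i)] {m : I → ℕ} {π : ∀ i, K i}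

theorem bar_bar (x : Σ i, (K i →+* ℂ)) :
    Pool.Agent.H194R3.CM.bar (Pool.Agent.H194R3.CM.bar x) = x := by
  obtain ⟨i, φ⟩ := x
  change (⟨i, ComplexEmbedding.conjugate (ComplexEmbedding.conjugate φ)⟩ : Σ i, (K i →+* ℂ)) =
    ⟨i, φ⟩
  rw [show ComplexEmbedding.conjugate (ComplexEmbedding.conjugate φ) = φ from star_star φ]

/-- The unit attached to a conjugate of a Weil number. -/
def yy (p : ℕ) (m : I → ℕ) (π : ∀ i, K i) (x : Σ i, (K i →+* ℂ)) : ℂ :=
  x.2 (π x.1) ^ 2 / (p : ℂ) ^ m x.1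

theorem yy_bar (hweil : ∀ i, ∀ φ : K i →+* ℂ, ‖φ (π i)‖ ^ 2 = (p : ℝ) ^ m i)
    (x : Σ i, (K i →+* ℂ)) : yy p m π x * yy p m π (Pool.Agent.H194R3.CM.bar x) = 1 := by
  obtain ⟨i, φ⟩ := x
  have hp0 : (p : ℂ) ^ m i ≠ 0 := pow_ne_zero _ (by exact_mod_cast hp.out.ne_zero)
  have h1 : φ (π i) * ComplexEmbedding.conjugate φ (π i) = (p : ℂ) ^ m i := by
    rw [ComplexEmbedding.conjugate_coe_eq, Complex.mul_conj, Complex.normSq_eq_norm_sq, hweil]
    push_cast
    rfl
  change φ (π i) ^ 2 / (p : ℂ) ^ m i * (ComplexEmbedding.conjugate φ (π i) ^ 2 / (p : ℂ) ^ m i) = 1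
  rw [div_mul_div_comm, ← mul_pow, h1, ← pow_two, div_self (pow_ne_zero _ hp0)]

theorem odd_rel_zero (hgen : ∀ i, IntermediateField.adjoin ℚ {π i} = ⊤)
    (hweil : ∀ i, ∀ φ : K i →+* ℂ, ‖φ (π i)‖ ^ 2 = (p : ℝ) ^ m i)
    (hg : Norm.PairingsGenerate p m π) (D : (Σ i, (K i →+* ℂ)) → ℤ)
    (hD : ∀ x, D (Pool.Agent.H194R3.CM.bar x) = - D x) (n : ℕ) (hn : 0 < n)
    (hrel : (∏ x, yy p m π x ^ D x) ^ n = 1) (x : Σ i, (K i →+* ℂ)) : D x = 0 := by
  classical
  have hp0 : (p : ℂ) ≠ 0 := by exact_mod_cast hp.out.ne_zero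
  have hy0 : ∀ x, yy p m π x ≠ 0 := fun x h0 => by
    have h1 := yy_bar hweil x
    rw [h0, zero_mul] at h1
    exact zero_ne_one h1
  let M : ℕ := ∑ x, (D x).natAbs
  have hM : ∀ x, 0 ≤ D x + M := by
    intro x
    have h1 : (D x).natAbs ≤ M :=
      Finset.single_le_sum (f := fun x => (D x).natAbs) (fun _ _ => Nat.zero_le _)
        (Finset.mem_univ x)
    omega
  let c' : (Σ i, (K i →+* ℂ)) → ℕ := fun x => 2 * n * (D x + M).toNat
  have hc' : ∀ x, (c' x : ℤ) = 2 * n * (D x + M) := by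
    intro x
    simp only [c']
    push_cast
    rw [Int.toNat_of_nonneg (hM x)]
  let c : (Σ i, (K i →+* ℂ)) → ℕ := fun x => 2 * c' x
  have hprod : (∏ x, yy p m π x) * (∏ x, yy p m π x) = 1 := by
    have h1 : ∏ x, yy p m π x = ∏ x, yy p m π (Pool.Agent.H194R3.CM.bar x) :=
      Fintype.prod_equiv (Function.Involutive.toPerm _ bar_bar) _ _
        (fun x => by rw [Function.Involutive.coe_toPerm, bar_bar])
    have h2 : (∏ x, yy p m π x) * (∏ x, yy p m π (Pool.Agent.H194R3.CM.bar x)) = 1 := by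
      rw [← Finset.prod_mul_distrib]
      exact Finset.prod_eq_one fun x _ => yy_bar hweil x
    rw [← h1] at h2
    exact h2
  have hc1 : ∏ x, yy p m π x ^ c' x = 1 := by
    have h1 : ∀ x, yy p m π x ^ c' x =
        (yy p m π x ^ D x) ^ (2 * n) * (yy p m π x * yy p m π x) ^ (n * M) := by
      intro x
      rw [← zpow_natCast, hc', ← pow_two, ← pow_mul, ← zpow_natCast, ← zpow_natCast, ← zpow_mul,
        ← zpow_add₀ (hy0 x)]
      congr 1
      push_cast
      ring
    rw [Finset.prod_congr rfl (fun x _ => h1 x), Finset.prod_mul_distrib, Finset.prod_pow,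
      Finset.prod_pow, Finset.prod_mul_distrib, hprod, one_pow, mul_one, mul_comm 2 n, pow_mul,
      hrel, one_pow]
  have hy : ∀ x : (Σ i, (K i →+* ℂ)), x.2 (π x.1) ^ 2 = yy p m π x * (p : ℂ) ^ m x.1 := by
    intro x
    unfold yy
    rw [div_mul_cancel₀ _ (pow_ne_zero _ hp0)]
  have hC : ∏ x : (Σ i, (K i →+* ℂ)), (x.2 (π x.1)) ^ c x =
      ∏ x : (Σ i, (K i →+* ℂ)), ((p : ℂ) ^ m x.1) ^ c' x := by
    have h1 : ∀ x : (Σ i, (K i →+* ℂ)), (x.2 (π x.1)) ^ c x =
        yy p m π x ^ c' x * ((p : ℂ) ^ m x.1) ^ c' x := by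
      intro x
      simp only [c]
      rw [pow_mul, hy, mul_pow]
    rw [Finset.prod_congr rfl (fun x _ => h1 x), Finset.prod_mul_distrib, hc1, one_mul]
  have hC2 : (∏ x : (Σ i, (K i →+* ℂ)), ((p : ℂ) ^ m x.1) ^ c' x) ^ 2 =
      ∏ x : (Σ i, (K i →+* ℂ)), ((p : ℂ) ^ m x.1) ^ c x := by
    rw [← Finset.prod_pow]
    refine Finset.prod_congr rfl fun x _ => ?_
    simp only [c]
    rw [← pow_mul, mul_comm (c' x) 2]
  have hbal := balanced_of_generate hgen hweil hg c _ hC hC2 x
  have h1 : (c' x : ℤ) = c' (Pool.Agent.H194R3.CM.bar x) := by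
    simp only [c] at hbal
    omega
  rw [hc', hc', hD] at h1
  have hn' : (0 : ℤ) < n := by exact_mod_cast hn
  have h2 : (2 * n : ℤ) * (D x + M) = 2 * n * (-D x + M) := h1
  have h3 := mul_left_cancel₀ (by positivity) h2
  omega

section free

variable [∀ i, IsCMField (K i)] {L : Type} [Field L] [NumberField L] [IsGalois ℚ L] (j : L →+* ℂ)
  (h : ∀ i, ∀ ψ : K i →+* ℂ, ∃ φ : K i →+* L, j.comp φ = ψ)

include h in
/-- If pairings generate, the slopes satisfy no relations. -/
theorem free_of_generate (hint : ∀ i, IsIntegral ℤ (π i))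
    (hgen : ∀ i, IntermediateField.adjoin ℚ {π i} = ⊤)
    (hweil : ∀ i, ∀ φ : K i →+* ℂ, ‖φ (π i)‖ ^ 2 = (p : ℝ) ^ m i)
    {κ : I → ℚ} (hκ : ∀ i, 0 < κ i) {u : ∀ i, (K i →+* PadicAlgCl p) → ℤ}
    (hu : ∀ i, ∀ τ : K i →+* PadicAlgCl p,
      2 * (- Real.logb p ‖τ (π i)‖) - m i = (κ i : ℝ) * u i τ) (jp : L →+* PadicAlgCl p)
    (hg : Norm.PairingsGenerate p m π) :
    Free (F := K) (L := L) (fun i φ => u i (jp.comp φ)) := by
  classical
  intro c hc hrel i φ
  have hp1 : (1 : ℝ) < p := by exact_mod_cast hp.out.one_lt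
  have hlogp : 0 < Real.log p := Real.log_pos hp1
  -- common factor
  let P : ℚ := ∏ i, ((κ i).num : ℚ)
  let A : I → ℤ := fun i => (κ i).den * ∏ i' ∈ Finset.univ.erase i, (κ i').num
  have hA : ∀ i, (A i : ℚ) * κ i = P := by
    intro i
    have h1 : κ i * (κ i).den = (κ i).num := Rat.mul_den_eq_num (κ i)
    simp only [A, P]
    rw [← Finset.mul_prod_erase _ _ (Finset.mem_univ i), ← h1]
    push_cast
    ring
  have hA0 : ∀ i, A i ≠ 0 := by
    intro i h0
    have h1 := hA i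
    rw [h0, Int.cast_zero, zero_mul] at h1
    have h2 : P ≠ 0 := Finset.prod_ne_zero_iff.2 fun i _ => by
      exact_mod_cast (Rat.num_pos.2 (hκ i)).ne'
    exact h2 h1.symm
  have hπ0 : ∀ i, π i ≠ 0 := fun i => ne_zero_of_weil (hweil i)
  let y : ∀ i, (K i →+* L) → L := fun i φ => φ (π i) ^ 2 / (p : L) ^ m i
  have hpL : (p : L) ≠ 0 := by exact_mod_cast hp.out.ne_zero
  have hy0 : ∀ i φ, y i φ ≠ 0 := fun i φ =>
    div_ne_zero (pow_ne_zero _ ((map_ne_zero φ).2 (hπ0 i))) (pow_ne_zero _ hpL)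
  let ξ : L := ∏ i, ∏ φ : K i →+* L, y i φ ^ (A i * c i φ)
  have hlog : ∀ (i : I) (φ : K i →+* L), Real.log ‖jp (y i φ)‖ =
      - (Real.log p * κ i * u i (jp.comp φ)) := by
    intro i φ
    have h2 := hu i (jp.comp φ)
    rw [Real.logb] at h2
    change 2 * (-(Real.log ‖jp (φ (π i))‖ / Real.log p)) - m i = _ at h2
    field_simp at h2
    simp only [y]
    have h3 : jp (φ (π i)) ≠ 0 := (map_ne_zero jp).2 ((map_ne_zero φ).2 (hπ0 i))
    have h4 : (p : PadicAlgCl p) ≠ 0 := by exact_mod_cast hp.out.ne_zero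
    rw [map_div₀, map_pow, map_pow, map_natCast, norm_div, norm_pow, norm_pow,
      Real.log_div (pow_ne_zero _ (norm_ne_zero_iff.2 h3)) (pow_ne_zero _ (norm_ne_zero_iff.2 h4)),
      Real.log_pow, Real.log_pow, log_norm_p]
    push_cast
    linarith
  obtain ⟨r, hr, hz⟩ : ∃ r : ℕ, 0 < r ∧ ξ ^ r = 1 := by
    apply root_of_unity
    · intro l _ e
      by_cases hl : l = p
      · subst hl
        let ealg : L →ₐ[ℚ] PadicAlgCl l := (jp : L →+* PadicAlgCl l).toRatAlgHom
        obtain ⟨g, hg⟩ := Pool.Agent.H485R3.exists_gal ealg e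
        have hg' : ∀ x, e x = jp (g x) := hg
        rw [hg']
        have h1 : jp (g ξ) = ∏ i, ∏ φ : K i →+* L, jp (y i (g • φ)) ^ (A i * c i φ) := by
          simp only [ξ, map_prod, map_zpow₀]
          refine Finset.prod_congr rfl fun i _ => Finset.prod_congr rfl fun φ _ => ?_
          simp only [y, map_div₀, map_pow, map_natCast]
          rfl
        have h2 : ∀ i φ, 0 < ‖jp (y i (g • φ)) ^ (A i * c i φ)‖ := fun i φ => by
          rw [norm_zpow]
          exact zpow_pos (norm_pos_iff.2 ((map_ne_zero jp).2 (hy0 _ _))) _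
        have h3 : 0 < ‖jp (g ξ)‖ := by
          rw [h1, _root_.norm_prod]
          refine Finset.prod_pos fun i _ => ?_
          rw [_root_.norm_prod]
          exact Finset.prod_pos fun φ _ => h2 i φ
        refine (Real.eq_one_of_pos_of_log_eq_zero h3 ?_).le
        rw [h1, _root_.norm_prod, Real.log_prod]
        · have h4 : ∀ i, Real.log ‖∏ φ : K i →+* L, jp (y i (g • φ)) ^ (A i * c i φ)‖ =
              - (Real.log l * P) * ((∑ φ : K i →+* L, c i φ * u i (jp.comp (g • φ)) : ℤ) : ℝ) := by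
            intro i
            rw [_root_.norm_prod, Real.log_prod (fun φ _ => (h2 i φ).ne')]
            push_cast
            rw [Finset.mul_sum]
            refine Finset.sum_congr rfl fun φ _ => ?_
            rw [norm_zpow, Real.log_zpow, hlog]
            have h5 : (A i : ℝ) * κ i = P := by exact_mod_cast hA i
            push_cast
            rw [← h5]
            ring
          rw [Finset.sum_congr rfl (fun i _ => h4 i), ← Finset.mul_sum, ← Int.cast_sum, hrel g,
            Int.cast_zero, mul_zero]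
        · intro i _
          rw [_root_.norm_prod]
          exact (Finset.prod_pos fun φ _ => h2 i φ).ne'
      · refine le_of_eq ?_
        simp only [ξ, map_prod, _root_.norm_prod, map_zpow₀, norm_zpow]
        refine Finset.prod_eq_one fun i _ => Finset.prod_eq_one fun φ _ => ?_
        have h1 : ‖e (φ (π i))‖ = 1 :=
          norm_eq_one_of_ne p (m i) (π i) (hint i) (hweil i) l hl
            ((e : L →+* PadicAlgCl l).comp φ)
        have h2 : ‖(p : PadicAlgCl l)‖ = 1 := by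
          have h4 : (p : PadicAlgCl l) = algebraMap ℚ_[l] (PadicAlgCl l) (p : ℚ_[l]) := by simp
          rw [h4, PadicAlgCl.norm_extends]
          rw [Padic.norm_natCast_eq_one_iff]
          exact (Nat.coprime_primes (Fact.out : l.Prime) hp.out).2 hl
        simp only [y, map_div₀, map_pow, map_natCast, norm_div, norm_pow, h1, h2, one_pow,
          div_one, one_zpow]
    · intro e
      simp only [ξ, map_prod, _root_.norm_prod, map_zpow₀, norm_zpow]
      refine Finset.prod_eq_one fun i _ => Finset.prod_eq_one fun φ _ => ?_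
      have hpr : (0 : ℝ) < (p : ℝ) ^ m i := pow_pos (by linarith) _
      have h1 : ‖e (φ (π i))‖ ^ 2 = (p : ℝ) ^ m i := hweil i ((e : L →+* ℂ).comp φ)
      simp only [y, map_div₀, map_pow, map_natCast, norm_div, norm_pow, h1, Complex.norm_natCast,
        div_self hpr.ne', one_zpow]
  -- transport to the complex numbers
  let E : ∀ i, (K i →+* L) ≃ (K i →+* ℂ) := fun i => embEquiv j (h i)
  let D : (Σ i, (K i →+* ℂ)) → ℤ := fun x => A x.1 * c x.1 ((E x.1).symm x.2)
  have hDj : ∀ i (φ : K i →+* L), D ⟨i, j.comp φ⟩ = A i * c i φ := by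
    intro i φ
    have h1 : (E i).symm (j.comp φ) = φ := (E i).symm_apply_apply φ
    simp only [D]
    rw [h1]
  have hDodd : ∀ x, D (Pool.Agent.H194R3.CM.bar x) = - D x := by
    rintro ⟨i, ψ⟩
    obtain ⟨φ, rfl⟩ := h i ψ
    have h1 : Pool.Agent.H194R3.CM.bar (⟨i, j.comp φ⟩ : Σ i, (K i →+* ℂ)) =
        ⟨i, j.comp (cbar φ)⟩ := by
      rw [comp_cbar]
      rfl
    rw [h1, hDj, hDj, hc]
    ring
  have hrelD : (∏ x, yy p m π x ^ D x) ^ r = 1 := by
    have h1 : ∏ x, yy p m π x ^ D x = j ξ := by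
      rw [Fintype.prod_sigma]
      simp only [ξ, map_prod]
      refine Finset.prod_congr rfl fun i _ => ?_
      refine (Fintype.prod_equiv (E i) _ _ fun φ => ?_).symm
      have h2 : E i φ = j.comp φ := rfl
      rw [h2, hDj, map_zpow₀]
      simp only [y, yy, map_div₀, map_pow, map_natCast]
      rfl
    rw [h1, ← map_pow, hz, map_one]
  have key := odd_rel_zero hgen hweil hg D hDodd r hr hrelD ⟨i, j.comp φ⟩
  rw [hDj] at key
  exact (mul_eq_zero.1 key).resolve_left (hA0 i)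

end free

end

end Run7.h16.AB
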