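import Mathlib
import Pool.Agent.Run7.h16.AB.Nec
import Pool.Agent.Run7.h16.AB.Defs

/-!
# The criterion for Weil numbers in abelian CM fields
-/

set_option linter.unusedSectionVars false
set_option linter.unusedVariables false

namespace Run7.h16.AB

open NumberField Module Pool.Agent.H204R3.CM Pool.Agent.H977R3.WN Pool.Agent.H485R3.Exact
  Pool.Agent.W527
open scoped IsMulCommutative

noncomputable section

/-- A finite cyclic group has a faithful character. -/
theorem exists_faithful (C : Type*) [CommGroup C] [Fintype C] [IsCyclic C] :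
    ∃ χ : C →* ℂ, Function.Injective χ := by
  obtain ⟨e⟩ := CommGroup.monoidHom_mulEquiv_of_hasEnoughRootsOfUnity C ℂ
  obtain ⟨γ, hγ⟩ := IsCyclic.exists_generator (α := C)
  refine ⟨(Units.coeHom ℂ).comp (e.symm γ), ?_⟩
  rw [← MonoidHom.ker_eq_bot_iff, eq_bot_iff]
  intro g hg
  rw [Subgroup.mem_bot]
  by_contra hne
  obtain ⟨ψ, hψ⟩ := CommGroup.exists_apply_ne_one_of_hasEnoughRootsOfUnity C ℂ hne
  apply hψ
  obtain ⟨k, hk⟩ := Subgroup.mem_zpowers_iff.1 (hγ (e ψ))
  have h1 : (e.symm γ) g = 1 := Units.ext hg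
  have h2 : ψ = (e.symm γ) ^ k := by
    rw [← map_zpow, hk, MulEquiv.symm_apply_apply]
  rw [h2, MonoidHom.zpow_apply, h1, one_zpow]

variable {p : ℕ} [hp : Fact p.Prime] {I : Type} [Fintype I] {K : I → Type} [∀ i, Field (K i)]
  [∀ i, NumberField (K i)] [∀ i, IsCMField (K i)] {m : I → ℕ} {π : ∀ i, K i}

section

variable [∀ i, IsAbelianGalois ℚ (K i)]
  {L : Type} [Field L] [NumberField L] [IsGalois ℚ L] (j : L →+* ℂ)
  (h : ∀ i, ∀ ψ : K i →+* ℂ, ∃ φ : K i →+* L, j.comp φ = ψ)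

include h in
theorem free_abelian (hint : ∀ i, IsIntegral ℤ (π i))
    (hweil : ∀ i, ∀ φ : K i →+* ℂ, ‖φ (π i)‖ ^ 2 = (p : ℝ) ^ m i)
    {κ : I → ℚ} (hκ : ∀ i, 0 < κ i) {u : ∀ i, (K i →+* PadicAlgCl p) → ℤ}
    (hu : ∀ i, ∀ τ : K i →+* PadicAlgCl p,
      2 * (- Real.logb p ‖τ (π i)‖) - m i = (κ i : ℝ) * u i τ) (jp : L →+* PadicAlgCl p)
    (hA : NormsIndecomposable π) (hB : RealIntersections K) :
    Free (F := K) (L := L) (fun i φ => u i (jp.comp φ)) := by
  classical
  obtain ⟨κc, hκc⟩ := exists_lift j (starRingAut : ℂ ≃+* ℂ)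
  have hκc' : ∀ x, starRingEnd ℂ (j x) = j (κc x) := hκc
  have hκc'' : ∀ i, ∀ φ : K i →+* L, κc • φ = cbar φ := by
    intro i φ
    apply comp_injective j
    change j.comp (κc • φ) = j.comp (cbar φ)
    rw [comp_cbar]
    exact RingHom.ext fun x => (hκc' (φ x)).symm
  choose φ₀ hφ₀ using fun i => h i (Classical.arbitrary _)
  choose r hrs hr using fun i => exists_rr (φ₀ i)
  have hz : ∀ i x, r i κc x = IsCMField.complexConj (K i) x := by
    intro i x
    apply (φ₀ i).injective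
    rw [hr]
    exact RingHom.congr_fun (hκc'' i (φ₀ i)) x
  intro c hc hrel i φ
  obtain ⟨g, rfl⟩ := em_surjective (φ₀ i) φ
  refine free_core (A := fun i => (K i ≃ₐ[ℚ] K i)) r hrs κc (fun i g => c i (em (φ₀ i) g))
    (fun i g => u i (jp.comp (em (φ₀ i) g))) ?_ ?_ ?_ ?_ i g
  · intro i a
    have h1 : em (φ₀ i) (r i κc * a) = cbar (em (φ₀ i) a) := by
      rw [mul_comm, ← smul_em (hr i), hκc'']
    rw [h1, hc]
  · intro σ
    rw [← hrel σ]
    refine Finset.sum_congr rfl fun i _ => ?_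
    refine Fintype.sum_equiv (emEquiv (φ₀ i)) _ _ fun a => ?_
    have h1 : emEquiv (φ₀ i) a = em (φ₀ i) a := rfl
    rw [h1, smul_em (hr i)]
  · intro i i' θ θ' hθ hθθ'
    by_contra hne
    have hn : NonReal (IntermediateField.fixedField θ.ker) := nonReal_fixed θ (r i κc) (hz i) hθ
    exact (nonReal_iff _).1 hn (hB i i' _ _ hne
      (exists_iso (hrs i) (hr i) (hrs i') (hr i') θ θ' hθθ'))
  · intro i θ hθ
    exact char_ne_zero j (h i) (hint i) (hweil i) (hu i) jp (φ₀ i)
      (fun T hT hc n hn => hA i T ⟨hT, hc⟩ n hn) (r i κc) (hz i) θ hθ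

end

section conv

variable {L : Type} [Field L] [NumberField L] [IsGalois ℚ L]

theorem sub_zero_of_free {w : ∀ i, (K i →+* L) → ℤ} (hfree : Free (F := K) (L := L) w)
    {κc : L ≃ₐ[ℚ] L} (hκ : ∀ i, ∀ φ : K i →+* L, κc • φ = cbar φ) (φ₀ : ∀ i, K i →+* L)
    (i : I) (T : IntermediateField ℚ (K i)) (c' : (T →+* L) → ℤ)
    (hodd : ∀ ψ, c' (κc • ψ) = - c' ψ)
    (hrel : ∀ σ : L ≃ₐ[ℚ] L, ∑ ψ, c' ψ * tr T (w i) (σ • ψ) = 0) (ψ : T →+* L) : c' ψ = 0 := by
  classical
  let c : ∀ i, (K i →+* L) → ℤ := Function.update (fun _ _ => 0) i (fun φ => c' (res T φ))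
  have hci : c i = fun φ => c' (res T φ) := Function.update_self _ _ _
  have hcne : ∀ i', i' ≠ i → c i' = fun _ => 0 := fun i' hne => Function.update_of_ne hne _ _
  obtain ⟨φ, rfl⟩ := res_surjective (φ₀ i) T ψ
  have key := hfree c (fun i' φ => by
      by_cases hi : i' = i
      · subst hi
        rw [hci]
        dsimp only
        rw [← hκ, res_smul, hodd]
      · rw [hcne i' hi]
        rfl) (fun σ => by
      rw [Finset.sum_eq_single i]
      · rw [hci]
        dsimp only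
        rw [sum_res]
        exact hrel σ
      · intro i' _ hne
        rw [hcne i' hne]
        simp
      · intro hi
        exact absurd (Finset.mem_univ _) hi) i φ
  rw [hci] at key
  exact key

theorem two_zero_of_free {w : ∀ i, (K i →+* L) → ℤ} (hfree : Free (F := K) (L := L) w)
    {κc : L ≃ₐ[ℚ] L} (hκ : ∀ i, ∀ φ : K i →+* L, κc • φ = cbar φ) (φ₀ : ∀ i, K i →+* L)
    (i i' : I) (hii : i ≠ i') (T : IntermediateField ℚ (K i)) (T' : IntermediateField ℚ (K i'))
    (c' : (T →+* L) → ℤ) (d' : (T' →+* L) → ℤ)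
    (hodd : ∀ ψ, c' (κc • ψ) = - c' ψ) (hodd' : ∀ ψ, d' (κc • ψ) = - d' ψ)
    (hrel : ∀ σ : L ≃ₐ[ℚ] L, ∑ ψ, c' ψ * tr T (w i) (σ • ψ) +
      ∑ ψ, d' ψ * tr T' (w i') (σ • ψ) = 0) : (∀ ψ, c' ψ = 0) ∧ ∀ ψ, d' ψ = 0 := by
  classical
  let c : ∀ i, (K i →+* L) → ℤ := Function.update
    (Function.update (fun _ _ => 0) i (fun φ => c' (res T φ))) i' (fun φ => d' (res T' φ))
  have hci' : c i' = fun φ => d' (res T' φ) := Function.update_self _ _ _
  have hci : c i = fun φ => c' (res T φ) := by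
    simp only [c]
    rw [Function.update_of_ne hii, Function.update_self]
  have hcne : ∀ k, k ≠ i → k ≠ i' → c k = fun _ => 0 := fun k h1 h2 => by
    simp only [c]
    rw [Function.update_of_ne h2, Function.update_of_ne h1]
  have key := hfree c (fun k φ => by
      by_cases hi : k = i
      · subst hi
        rw [hci]
        dsimp only
        rw [← hκ, res_smul, hodd]
      · by_cases hi' : k = i'
        · subst hi'
          rw [hci']
          dsimp only
          rw [← hκ, res_smul, hodd']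
        · rw [hcne k hi hi']
          rfl) (fun σ => by
      rw [← Finset.add_sum_erase _ _ (Finset.mem_univ i),
        ← Finset.add_sum_erase _ _ (Finset.mem_erase.2 ⟨hii.symm, Finset.mem_univ i'⟩)]
      have h0 : ∑ k ∈ (Finset.univ.erase i).erase i', ∑ φ, c k φ * w k (σ • φ) = 0 := by
        refine Finset.sum_eq_zero fun k hk => ?_
        rw [Finset.mem_erase, Finset.mem_erase] at hk
        rw [hcne k hk.2.1 hk.1]
        simp
      rw [h0, add_zero, hci, hci']
      dsimp only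
      rw [sum_res, sum_res]
      exact hrel σ)
  constructor
  · intro ψ
    obtain ⟨φ, rfl⟩ := res_surjective (φ₀ i) T ψ
    have h1 := key i φ
    rw [hci] at h1
    exact h1
  · intro ψ
    obtain ⟨φ, rfl⟩ := res_surjective (φ₀ i') T' ψ
    have h1 := key i' φ
    rw [hci'] at h1
    exact h1

end conv

end

end Run7.h16.AB
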