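import Mathlib
import Pool.Agent.Run7.h16.AB.Main

/-!
# The criterion for Weil numbers in abelian CM fields: main theorem
-/

set_option linter.unusedSectionVars false
set_option linter.unusedVariables false

namespace Run7.h16.AB

open NumberField Module Pool.Agent.H204R3.CM Pool.Agent.H977R3.WN Pool.Agent.H485R3.Exact
  Pool.Agent.W527
open scoped IsMulCommutative

noncomputable section

section one

variable {K L : Type} [Field K] [NumberField K] [IsCMField K] [IsAbelianGalois ℚ K]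
  [Field L] [NumberField L] [IsGalois ℚ L]

/-- Complex conjugation on a subfield. -/
theorem conj_sub {κc : L ≃ₐ[ℚ] L} (hκ : ∀ φ : K →+* L, κc • φ = cbar φ) (φ₀ : K →+* L)
    {T : IntermediateField ℚ K} (hT : NonReal T) {rT : (L ≃ₐ[ℚ] L) →* (T ≃ₐ[ℚ] T)}
    (hrT : ∀ σ x, res T φ₀ (rT σ x) = σ (res T φ₀ x)) :
    rT κc * rT κc = 1 ∧ rT κc ≠ 1 := by
  have h0 : ∀ g, κc • em (res T φ₀) g = em (res T φ₀) (g * rT κc) := fun g => smul_em hrT κc g
  constructor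
  · apply em_injective (res T φ₀)
    have h1 := sub_invol φ₀ hκ T (em (res T φ₀) 1)
    rw [h0, h0, one_mul] at h1
    exact h1
  · intro h1
    have h2 := sub_ne φ₀ hκ hT (em (res T φ₀) 1)
    rw [h0, h1, mul_one] at h2
    exact h2 rfl

end one

variable {p : ℕ} [hp : Fact p.Prime] {I : Type} [Fintype I] {K : I → Type} [∀ i, Field (K i)]
  [∀ i, NumberField (K i)] [∀ i, IsCMField (K i)] [∀ i, IsAbelianGalois ℚ (K i)] {m : I → ℕ}
  {π : ∀ i, K i}
  {L : Type} [Field L] [NumberField L] [IsGalois ℚ L] (j : L →+* ℂ)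
  (h : ∀ i, ∀ ψ : K i →+* ℂ, ∃ φ : K i →+* L, j.comp φ = ψ)

include h in
/-- If the slopes are free, norms are indecomposable. -/
theorem indecomposable_of_free
    (hweil : ∀ i, ∀ φ : K i →+* ℂ, ‖φ (π i)‖ ^ 2 = (p : ℝ) ^ m i)
    {κ : I → ℚ} (hκ : ∀ i, 0 < κ i) {u : ∀ i, (K i →+* PadicAlgCl p) → ℤ}
    (hu : ∀ i, ∀ τ : K i →+* PadicAlgCl p,
      2 * (- Real.logb p ‖τ (π i)‖) - m i = (κ i : ℝ) * u i τ) (jp : L →+* PadicAlgCl p)
    {κc : L ≃ₐ[ℚ] L} (hκc : ∀ i, ∀ φ : K i →+* L, κc • φ = cbar φ) (φ₀ : ∀ i, K i →+* L)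
    (hfree : Free (F := K) (L := L) (fun i φ => u i (jp.comp φ))) :
    NormsIndecomposable π := by
  classical
  rintro i T ⟨hT, hcyc⟩ n hn hmem
  have hlogp : 0 < Real.log p := Real.log_pos (by exact_mod_cast hp.out.one_lt)
  have hTn : NonReal T := (nonReal_iff T).2 hT
  let ψ₀ : T →+* L := res T (φ₀ i)
  obtain ⟨rT, -, hrT⟩ := exists_rr ψ₀
  obtain ⟨hz2, hz1⟩ := conj_sub (hκc i) (φ₀ i) hTn hrT
  let w : ∀ i, (K i →+* L) → ℤ := fun i φ => u i (jp.comp φ)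
  let W : (T ≃ₐ[ℚ] T) → ℤ := fun k => tr T (w i) (em ψ₀ k)
  have hu0 : Norm.unitNorm p (m i) T (π i) ≠ 0 :=
    unitNorm_ne_zero (ne_zero_of_weil (hweil i)) T
  let v : Additive Tˣ := Additive.ofMul (Units.mk0 (Norm.unitNorm p (m i) T (π i)) hu0)
  have hp0 : (p : T) ≠ 0 := by exact_mod_cast hp.out.ne_zero
  have hvQ : n • v ∈ Q T := by
    rw [mem_Q, toMul_nsmul, Units.val_pow_eq_pow_val]
    change Norm.unitNorm p (m i) T (π i) ^ n ∈ _
    unfold Norm.unitNorm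
    rw [div_pow, ← pow_mul, mul_comm 2 n, pow_mul, div_eq_mul_inv]
    exact mul_mem (pow_mem hmem 2) (inv_mem_closure (pow_mem (pow_mem
      (Submonoid.subset_closure (natCast_mem_smaller hz1 p)) _) _))
  have hact := act_eps_zero _ hvQ
  rw [map_nsmul] at hact
  have hprod : (∏ g : T ≃ₐ[ℚ] T, (g (Norm.unitNorm p (m i) T (π i))) ^
      ((eps (T ≃ₐ[ℚ] T)).coeff g)) ^ n = 1 := by
    have h1 := congrArg (fun x : Additive Tˣ => ((Additive.toMul x : Tˣ) : T)) hact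
    rw [toMul_nsmul, Units.val_pow_eq_pow_val, act_val] at h1
    exact h1
  have hconv : ∀ k : T ≃ₐ[ℚ] T, ∑ g, (eps (T ≃ₐ[ℚ] T)).coeff g * W (g * k) = 0 := by
    intro k
    have h1 := congrArg (fun x => Real.log ‖jp (em ψ₀ k x)‖) hprod
    rw [map_one, map_one, norm_one, Real.log_one, map_pow, map_pow, norm_pow, Real.log_pow,
      map_prod, map_prod, _root_.norm_prod] at h1
    have h5 : ∀ g : T ≃ₐ[ℚ] T, ‖jp (em ψ₀ k (g (Norm.unitNorm p (m i) T (π i))))‖ ≠ 0 :=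
      fun g => norm_ne_zero_iff.2 ((map_ne_zero jp).2 ((map_ne_zero _).2 ((map_ne_zero g).2 hu0)))
    rw [Real.log_prod (fun g _ => by
      rw [map_zpow₀, map_zpow₀, norm_zpow]
      exact zpow_ne_zero _ (h5 g))] at h1
    have h7 : ∀ g : T ≃ₐ[ℚ] T, Real.log ‖jp (em ψ₀ k (g (Norm.unitNorm p (m i) T (π i)) ^
        ((eps (T ≃ₐ[ℚ] T)).coeff g)))‖ = - (Real.log p * κ i) *
          (((eps (T ≃ₐ[ℚ] T)).coeff g * W (g * k) : ℤ) : ℝ) := by
      intro g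
      rw [map_zpow₀, map_zpow₀, norm_zpow, Real.log_zpow]
      have h8 := log_unitNorm j (h i) (ne_zero_of_weil (hweil i)) (hu i) T (em ψ₀ (k * g)) jp
      change Real.log ‖jp (em ψ₀ k (g (Norm.unitNorm p (m i) T (π i))))‖ = _ at h8
      rw [h8, mul_comm k]
      change _ * -(Real.log p * κ i * (W (g * k) : ℝ)) = _
      push_cast
      ring
    rw [Finset.sum_congr rfl (fun g _ => h7 g), ← Finset.mul_sum, ← Int.cast_sum] at h1
    have hn0 : (n : ℝ) ≠ 0 := by exact_mod_cast hn.ne'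
    have hκ0 : (κ i : ℝ) ≠ 0 := by exact_mod_cast (hκ i).ne'
    have h9 := (mul_eq_zero.1 h1).resolve_left hn0
    have h10 := (mul_eq_zero.1 h9).resolve_left (neg_ne_zero.2 (mul_ne_zero hlogp.ne' hκ0))
    exact_mod_cast h10
  have hsymm : ∀ (σ : L ≃ₐ[ℚ] L) (g : T ≃ₐ[ℚ] T),
      (emEquiv ψ₀).symm (σ • em ψ₀ g) = g * rT σ := by
    intro σ g
    rw [smul_em hrT]
    exact (emEquiv ψ₀).symm_apply_apply _
  have hsymm1 : ∀ g : T ≃ₐ[ℚ] T, (emEquiv ψ₀).symm (em ψ₀ g) = g := fun g =>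
    (emEquiv ψ₀).symm_apply_apply _
  let c' : (T →+* L) → ℤ := fun ψ => (eps (T ≃ₐ[ℚ] T)).coeff ((emEquiv ψ₀).symm ψ)
  have key := sub_zero_of_free hfree hκc φ₀ i T c' (fun ψ => by
      obtain ⟨g, rfl⟩ := em_surjective ψ₀ ψ
      simp only [c']
      rw [hsymm, hsymm1, mul_comm]
      exact eps_odd _ hz2 hz1 g) (fun σ => by
      rw [← hconv (rT σ)]
      refine (Fintype.sum_equiv (emEquiv ψ₀) _ _ fun g => ?_).symm
      have e1 : emEquiv ψ₀ g = em ψ₀ g := rfl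
      simp only [c']
      rw [e1, hsymm1, smul_em hrT])
  obtain ⟨χ, hχ⟩ := exists_faithful (T ≃ₐ[ℚ] T)
  obtain ⟨g, hg⟩ := exists_eps_ne_zero χ hχ
  apply hg
  have h1 := key (em ψ₀ g)
  simp only [c'] at h1
  rw [hsymm1] at h1
  exact h1

/-- If the slopes are free, isomorphic subfields are totally real. -/
theorem realIntersections_of_free {w : ∀ i, (K i →+* L) → ℤ}
    (hw : ∀ i φ, w i (cbar φ) = - w i φ)
    {κc : L ≃ₐ[ℚ] L} (hκc : ∀ i, ∀ φ : K i →+* L, κc • φ = cbar φ) (φ₀ : ∀ i, K i →+* L)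
    (hfree : Free (F := K) (L := L) w) : RealIntersections K := by
  classical
  rintro i i' T T' hii ⟨e⟩
  by_contra hT
  have hTn : NonReal T := (nonReal_iff T).2 hT
  let ψ₀ : T →+* L := res T (φ₀ i)
  obtain ⟨rT, -, hrT⟩ := exists_rr ψ₀
  obtain ⟨hz2, hz1⟩ := conj_sub (hκc i) (φ₀ i) hTn hrT
  let W : (T ≃ₐ[ℚ] T) → ℤ := fun k => tr T (w i) (em ψ₀ k)
  let bk : (T →+* L) → (T' →+* L) := fun ψ => ψ.comp (e.symm : T' →+* T)
  let fd : (T' →+* L) → (T →+* L) := fun ψ => ψ.comp (e : T →+* T')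
  have hfb : ∀ ψ, fd (bk ψ) = ψ := fun ψ => RingHom.ext fun x => by
    change ψ (e.symm (e x)) = ψ x
    rw [RingEquiv.symm_apply_apply]
  have hbf : ∀ ψ, bk (fd ψ) = ψ := fun ψ => RingHom.ext fun x => by
    change ψ (e (e.symm x)) = ψ x
    rw [RingEquiv.apply_symm_apply]
  have hbs : ∀ (σ : L ≃ₐ[ℚ] L) ψ, σ • bk ψ = bk (σ • ψ) := fun σ ψ => rfl
  have hfs : ∀ (σ : L ≃ₐ[ℚ] L) ψ, fd (σ • ψ) = σ • fd ψ := fun σ ψ => rfl
  let W' : (T ≃ₐ[ℚ] T) → ℤ := fun k => tr T' (w i') (bk (em ψ₀ k))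
  have hWodd : ∀ k, W (k * rT κc) = - W k := by
    intro k
    simp only [W]
    rw [← smul_em hrT, tr_odd (φ₀ i) (hκc i) T (hw i)]
  have hWodd' : ∀ k, W' (k * rT κc) = - W' k := by
    intro k
    simp only [W']
    rw [← smul_em hrT, ← hbs, tr_odd (φ₀ i') (hκc i') T' (hw i')]
  have hsymm : ∀ (σ : L ≃ₐ[ℚ] L) (g : T ≃ₐ[ℚ] T),
      (emEquiv ψ₀).symm (σ • em ψ₀ g) = g * rT σ := by
    intro σ g
    rw [smul_em hrT]
    exact (emEquiv ψ₀).symm_apply_apply _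
  have hsymm1 : ∀ g : T ≃ₐ[ℚ] T, (emEquiv ψ₀).symm (em ψ₀ g) = g := fun g =>
    (emEquiv ψ₀).symm_apply_apply _
  have hzinv : ∀ g : T ≃ₐ[ℚ] T, (g * rT κc)⁻¹ = g⁻¹ * rT κc := by
    intro g
    rw [mul_inv, inv_eq_of_mul_eq_one_left hz2]
  let c' : (T →+* L) → ℤ := fun ψ => W' ((emEquiv ψ₀).symm ψ)⁻¹
  let d' : (T' →+* L) → ℤ := fun ψ => - W ((emEquiv ψ₀).symm (fd ψ))⁻¹
  obtain ⟨h1, h2⟩ := two_zero_of_free hfree hκc φ₀ i i' hii T T' c' d' (fun ψ => by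
      obtain ⟨g, rfl⟩ := em_surjective ψ₀ ψ
      simp only [c']
      rw [hsymm, hsymm1, hzinv, hWodd']) (fun ψ => by
      obtain ⟨g, hg⟩ := em_surjective ψ₀ (fd ψ)
      simp only [d']
      rw [hfs, ← hg, hsymm, hsymm1, hzinv, hWodd]) (fun σ => by
      have e1 : ∑ ψ, c' ψ * tr T (w i) (σ • ψ) = ∑ g, W' g⁻¹ * W (g * rT σ) := by
        refine (Fintype.sum_equiv (emEquiv ψ₀) _ _ fun g => ?_).symm
        have e1 : emEquiv ψ₀ g = em ψ₀ g := rfl
        simp only [c']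
        rw [e1, hsymm1, smul_em hrT]
      have e2 : ∑ ψ, d' ψ * tr T' (w i') (σ • ψ) = ∑ g, - W g⁻¹ * W' (g * rT σ) := by
        let E : (T ≃ₐ[ℚ] T) ≃ (T' →+* L) :=
          (emEquiv ψ₀).trans ⟨bk, fd, hfb, hbf⟩
        refine (Fintype.sum_equiv E _ _ fun g => ?_).symm
        have e1 : E g = bk (em ψ₀ g) := rfl
        simp only [d']
        rw [e1, hfb, hsymm1, hbs, smul_em hrT]
      rw [e1, e2]
      have e3 : ∑ g, W' g⁻¹ * W (g * rT σ) = ∑ g, W g⁻¹ * W' (g * rT σ) := by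
        refine Fintype.sum_equiv ((Equiv.mulRight (rT σ)).trans (Equiv.inv _)) _ _ fun g => ?_
        change _ = W ((g * rT σ)⁻¹)⁻¹ * W' ((g * rT σ)⁻¹ * rT σ)
        rw [inv_inv, mul_inv, inv_mul_cancel_right, mul_comm]
      rw [e3, ← Finset.sum_add_distrib]
      exact Finset.sum_eq_zero fun g _ => by ring)
  have hW0 : ∀ g, W g = 0 := by
    intro g
    have h3 := h2 (bk (em ψ₀ g⁻¹))
    simp only [d'] at h3
    rw [hfb, hsymm1, inv_inv, neg_eq_zero] at h3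
    exact h3
  have key := sub_zero_of_free hfree hκc φ₀ i T
    (fun ψ => (if ψ = ψ₀ then 1 else 0) - (if κc • ψ = ψ₀ then 1 else 0)) (fun ψ => by
      have h3 : κc • κc • ψ = ψ := sub_invol (φ₀ i) (hκc i) T ψ
      rw [h3]
      ring) (fun σ => by
      refine Finset.sum_eq_zero fun ψ _ => ?_
      obtain ⟨g, hg⟩ := em_surjective ψ₀ (σ • ψ)
      have h4 := hW0 g
      simp only [W] at h4
      rw [← hg, h4, mul_zero]) ψ₀
  have h5 : κc • ψ₀ ≠ ψ₀ := sub_ne (φ₀ i) (hκc i) hTn ψ₀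
  rw [if_pos rfl, if_neg h5] at key
  omega

/-- The criterion for all abelian CM fields. -/
theorem abelian_criterion (m : I → ℕ) (π : ∀ i, K i) (hint : ∀ i, IsIntegral ℤ (π i))
    (hgen : ∀ i, IntermediateField.adjoin ℚ {π i} = ⊤)
    (hweil : ∀ i, ∀ φ : K i →+* ℂ, ‖φ (π i)‖ ^ 2 = (p : ℝ) ^ m i) :
    Norm.PairingsGenerate p m π ↔ NormsIndecomposable π ∧ RealIntersections K := by
  classical
  choose κ u hκ hu using fun i => exists_slopes_pos (p := p) (ne_zero_of_weil (hweil i)) (m i)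
  constructor
  · intro hg
    obtain ⟨L, _, _, j, h⟩ := exists_galois K
    let jp : L →ₐ[ℚ] PadicAlgCl p := IsAlgClosed.lift
    obtain ⟨κc, hκc⟩ := exists_lift j (starRingAut : ℂ ≃+* ℂ)
    have hκc' : ∀ x, starRingEnd ℂ (j x) = j (κc x) := hκc
    have hκc'' : ∀ i, ∀ φ : K i →+* L, κc • φ = cbar φ := by
      intro i φ
      apply comp_injective j
      change j.comp (κc • φ) = j.comp (cbar φ)
      rw [comp_cbar]
      exact RingHom.ext fun x => (hκc' (φ x)).symm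
    choose φ₀ hφ₀ using fun i => h i (Classical.arbitrary _)
    have hfree := free_of_generate j h hint hgen hweil hκ hu (jp : L →+* PadicAlgCl p) hg
    exact ⟨indecomposable_of_free j h hweil hκ hu (jp : L →+* PadicAlgCl p) hκc'' φ₀ hfree,
      realIntersections_of_free
        (fun i φ => anti_of_slopes' (hweil i) (hκ i).ne' (hu i) ((jp : L →+* PadicAlgCl p).comp φ))
        hκc'' φ₀ hfree⟩
  · rintro ⟨hA, hB⟩ Ω _ _ _ V _ _ _ F hF n t s hs c hc φ hφ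
    refine tate_of_free_finite p K m π hgen hweil κ (fun i => (hκ i).ne') u hu ?_ V F hF t s hs c
      hc φ hφ
    intro L _ _ j h jp
    exact free_abelian j h hint hweil hκ hu jp hA hB

end

end Run7.h16.AB
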